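import Pool.Agent.J4.H19.LP.SecTrB
import Pool.Agent.J4.H19.LP.LPb
import Pool.Agent.J4.H19.LC.Mon
import Pool.Agent.J4.H19.LC.Eff

/-!
Monomial divisors on covers which are branched along log canonical hypersurfaces: the order of the
sections at arbitrary places, and the sections given by the vertices of the polyhedron.
-/

set_option autoImplicit false
set_option linter.overlappingInstances false
set_option linter.unusedSectionVars false
set_option maxHeartbeats 1000000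

open FF MvPolynomial IntermediateField Pool.Agent.W603.LV Pool.Agent.W619.PQ
open Pool.Agent.W619.TW Pool.Agent.W602.GT Pool.Agent.TH122.AB Pool.Agent.TH756.PN
open Pool.Agent.Y169.CH Pool.Agent.W602.Cov.G Pool.Agent.W602.Cov Pool.Agent.TH152.AC
open Pool.Agent.Y169.TH

namespace Pool.Agent.J4.H19.LC

/-- the polyhedron -/
def PiB {N R : ℕ} (M : Fin R → ℕ) (a : Fin R → Fin N → ℕ) (dF : Fin N → ℕ)
    (b : (Fin N → ℕ) → ℚ) (c : ℚ) : Set (Fin N → ℚ) :=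
  {y | ∑ k, (dF k : ℚ) * y k = ∑ k, (dF k : ℚ) - N + c ∧
    ∀ v, Adm M a v → 1 - b v ≤ ∑ k, (v k : ℚ) * y k}

/-- a section of `m (K + Δ) + j A`, at the places of `W` -/
def ASecB {K : Type} [Field K] [Algebra ℂ K] (n : ℕ) (W : Set (Place ℂ K)) (δ : Place ℂ K → ℚ)
    (S : Finset K) (m j : ℕ) (ω : (Fin n → Derivation ℂ K K) → K) : Prop :=
  IsPluri m ω ∧ ∀ P ∈ W, Divisorial n P → ∀ D : Fin n → Derivation ℂ K K,
    (∀ c, DerReg P (D c)) → ω D = 0 ∨ ∃ s ∈ S, s ≠ 0 ∧ (j * P.ord s : ℚ) - m * δ P ≤ P.ord (ω D)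

theorem asecB_sec {K : Type} [Field K] [Algebra ℂ K] {n : ℕ} {W : Set (Place ℂ K)}
    {δ : Place ℂ K → ℚ} {S : Finset K}
    {m j : ℕ} {ω : (Fin n → Derivation ℂ K K) → K} (h : ASecB n W δ S m j ω) :
    SecB n W δ (pw S j) m ω := by
  refine ⟨h.1, fun P hPW hP D hD => ?_⟩
  refine (h.2 P hPW hP D hD).imp id ?_
  rintro ⟨s, hs, hs0, hle⟩
  refine ⟨s ^ j, mem_pw.2 ⟨s, hs, rfl⟩, pow_ne_zero _ hs0, ?_⟩
  rw [P.ord_pow]
  change (((j : ℤ) * P.ord s : ℤ) : ℝ) - m * ((δ P : ℚ) : ℝ) ≤ P.ord (ω D)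
  exact_mod_cast hle

namespace Cv

variable {d : ℕ} {Φ : Arr (d + 1)} {K : Type} [Field K] [Algebra ℂ K] {R : ℕ} (C : Cv Φ K R)
  {δ : Place ℂ K → ℚ} {b : (Fin (d + 2) → ℕ) → ℚ} {c : ℚ}

/-- finitely many inequalities which give the polyhedron -/
structure Tst (b : (Fin (d + 2) → ℕ) → ℚ) (c : ℚ) (S : Finset (Fin (d + 2) → ℕ)) : Prop where
  adm : ∀ v ∈ S, Adm C.M C.a v
  unit : ∀ k, (fun i => if i = k then per C.M else 0) ∈ S
  suff : ∀ y : Fin (d + 2) → ℚ, ∑ k, (Φ.dF k : ℚ) * y k = ∑ k, (Φ.dF k : ℚ) - ((d + 2 : ℕ) : ℚ) + c →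
    (∀ v ∈ S, 1 - b v ≤ ∑ k, (v k : ℚ) * y k) →
    ∀ v, Adm C.M C.a v → 1 - b v ≤ ∑ k, (v k : ℚ) * y k

include C in
theorem adm_unit (k : Fin (d + 2)) : Adm C.M C.a fun i => if i = k then per C.M else 0 := by
  classical
  obtain ⟨s, hs⟩ := exists_unit_red (M := C.M) (a := C.a) C.hM (by omega) k
  have h := s.2
  have h1 : (fun k => ((s.1 k : ℕ))) = fun i => if i = k then per C.M else 0 := funext hs
  rwa [h1] at h

theorem exists_tst (hb1 : ∀ v, b v ≤ 1) (hfin : (Set.range b).Finite) (c : ℚ) :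
    ∃ S, C.Tst b c S := by
  classical
  obtain ⟨S, hS1, hS2⟩ := exists_basis (Adm C.M C.a) (fun v => 1 - b v) (by
    have h1 : Set.range (fun v => 1 - b v) = (fun t => 1 - t) '' Set.range b := by
      rw [← Set.range_comp]
      rfl
    rw [h1]
    exact hfin.image _)
  refine ⟨S ∪ Finset.univ.image fun (k : Fin (d + 2)) => (fun i => if i = k then per C.M else 0),
    ?_, ?_, ?_⟩
  · intro v hv
    rcases Finset.mem_union.1 hv with hv | hv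
    · exact hS1 v hv
    · obtain ⟨k, -, rfl⟩ := Finset.mem_image.1 hv
      exact C.adm_unit k
  · intro k
    exact Finset.mem_union_right _ (Finset.mem_image_of_mem _ (Finset.mem_univ k))
  · intro y _ hy v hv
    have hper : (0 : ℚ) < per C.M := by exact_mod_cast per_pos C.hM
    have hy0 : ∀ k, 0 ≤ y k := by
      intro k
      have h1 := hy _ (Finset.mem_union_right _ (Finset.mem_image_of_mem _ (Finset.mem_univ k)))
      rw [Finset.sum_eq_single k] at h1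
      · rw [if_pos rfl] at h1
        have h2 := hb1 fun i => if i = k then per C.M else 0
        by_contra hneg
        push Not at hneg
        nlinarith
      · intro i _ hi
        rw [if_neg hi, Nat.cast_zero, zero_mul]
      · intro h
        exact absurd (Finset.mem_univ _) h
    obtain ⟨v', hv', hle, hr⟩ := hS2 v hv
    refine (hr.trans (hy v' (Finset.mem_union_left _ hv'))).trans ?_
    refine Finset.sum_le_sum fun k _ => mul_le_mul_of_nonneg_right ?_ (hy0 k)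
    exact_mod_cast hle k

/-- the vectors -/
def vq {N : ℕ} {S : Finset (Fin N → ℕ)} (s : {v // v ∈ S}) (k : Fin N) : ℚ := (s.1 k : ℚ)

variable {S0 : Finset (Fin (d + 2) → ℕ)}

theorem PiB_eq (hT : C.Tst b c S0) : PiB C.M C.a Φ.dF b c =
    PolB (fun k => (Φ.dF k : ℚ)) (∑ k, (Φ.dF k : ℚ) - ((d + 2 : ℕ) : ℚ) + c)
      (fun s : {v // v ∈ S0} => vq s) fun s => 1 - b s.1 := by
  ext y
  constructor
  · rintro ⟨h1, h2⟩
    refine ⟨?_, fun s => ?_⟩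
    · rw [dotL_apply]
      exact h1
    · rw [dotL_apply]
      exact h2 s.1 (hT.adm s.1 s.2)
  · rintro ⟨h1, h2⟩
    rw [dotL_apply] at h1
    refine ⟨h1, hT.suff y h1 fun v hv => ?_⟩
    have h3 := h2 ⟨v, hv⟩
    rwa [dotL_apply] at h3

/-- the data of the polyhedron -/
theorem pol_dataB (hT : C.Tst b c S0) : (∀ k, (0 : ℚ) < Φ.dF k) ∧
    ∀ y : Fin (d + 2) → ℚ, (∀ s : {v // v ∈ S0}, 0 ≤ dotL (vq s) y) → ∀ k, 0 ≤ y k := by
  classical
  have hL : (0 : ℚ) < per C.M := by exact_mod_cast per_pos C.hM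
  refine ⟨fun k => by exact_mod_cast Φ.hd k, fun y hy k => ?_⟩
  have h1 := hy ⟨_, hT.unit k⟩
  rw [dotL_apply, Finset.sum_eq_single k] at h1
  · unfold vq at h1
    dsimp only at h1
    rw [if_pos rfl] at h1
    exact nonneg_of_mul_nonneg_right h1 hL
  · intro i _ hi
    unfold vq
    dsimp only
    rw [if_neg hi, Nat.cast_zero, zero_mul]
  · intro h
    exact absurd (Finset.mem_univ _) h

theorem kappa_nonneg (Φ : Arr (d + 1)) : (0 : ℚ) ≤ ∑ k, (Φ.dF k : ℚ) - (d + 2) := by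
  have h1 : ∑ _k : Fin (d + 2), (1 : ℚ) ≤ ∑ k, (Φ.dF k : ℚ) :=
    Finset.sum_le_sum fun k _ => by exact_mod_cast Φ.hd k
  simp at h1
  linarith

/-- the degree of the common denominator -/
theorem exists_q {X : ℚ} (hX : 0 ≤ X) (Φ : Arr (d + 1)) :
    ∃ q : ℕ, X ≤ Φ.E * q ∧ (Φ.E * q : ℚ) ≤ X + Φ.E := by
  have hE : (0 : ℚ) < Φ.E := by exact_mod_cast Φ.E_pos
  refine ⟨⌈X / Φ.E⌉₊, ?_, ?_⟩
  · have h1 := Nat.le_ceil (X / Φ.E)
    rw [div_le_iff₀ hE] at h1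
    linarith
  · have h1 := (Nat.ceil_lt_add_one (div_nonneg hX hE.le)).le
    calc (Φ.E : ℚ) * ⌈X / Φ.E⌉₊ ≤ Φ.E * (X / Φ.E + 1) := mul_le_mul_of_nonneg_left h1 hE.le
      _ = X + Φ.E := by
        rw [mul_add, mul_one, mul_div_cancel₀ _ hE.ne']

/-- **The lower bound.** -/
theorem sec_lowB (hδ : C.Mono δ b c) (hb0 : b 0 = 0) (hb1 : ∀ v, b v ≤ 1)
    (hbg : ∀ (g : ℕ) (v : Fin (d + 2) → ℕ), 1 ≤ g → Adm C.M C.a v →
      1 - b (fun k => g * v k) ≤ g * (1 - b v)) (hc : 0 ≤ c) (hT : C.Tst b c S0) (S : Finset K)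
    {D : Fin (d + 1) → Derivation ℂ K K} (hD : ∀ i j, D i (C.u j) = if i = j then 1 else 0)
    {Q : Place ℂ K} {α : ℤ} {v : Fin (d + 2) → ℕ} (hdat : Dat Q Φ.F Φ.dF C.x α v) (hα : α ≤ 0)
    {c0 : ℚ} (hc0 : ∀ y ∈ PiB C.M C.a Φ.dF b c, c0 ≤ ∑ k, (v k : ℚ) * y k) :
    ∃ A1 : ℚ, 0 ≤ A1 ∧ ∀ (m j : ℕ) (ω : (Fin (d + 1) → Derivation ℂ K K) → K),
      SecB (d + 1) C.LPl δ (pw S j) m ω → ω D = 0 ∨
        c0 * m + α * (∑ k, (Φ.dF k : ℚ) - (d + 2) + c) * m - A1 * (j + 1) ≤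
          (Q.ord (ω D * C.Lam m) : ℚ) := by
  classical
  rw [C.PiB_eq hT] at hc0
  choose T hT' using fun s : {v // v ∈ S0} => C.exists_dir (hT.adm s.1 s.2)
  obtain ⟨c1, hC⟩ := C.sec_trB hδ hb0 hb1 hbg T S hD Q
  obtain ⟨κ, hκ⟩ : ∃ κ : ℚ, κ = ∑ k, (Φ.dF k : ℚ) - (d + 2) + c := ⟨_, rfl⟩
  have hκ0 : 0 ≤ κ := by
    rw [hκ]
    linarith [kappa_nonneg Φ]
  have hκq : (∑ k, (Φ.dF k : ℚ) - ((d + 2 : ℕ) : ℚ)) + c = κ := by
    rw [hκ]
    push_cast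
    ring
  rw [hκq] at hc0
  rw [← hκ]
  rw [← hκ] at hC
  obtain ⟨hdq, hnn⟩ := C.pol_dataB hT
  obtain ⟨A0, hA0, hmin⟩ := lp_minB (u := fun k => (v k : ℚ)) (c0 := c0) hdq hnn (fun y hy => by
    rw [dotL_apply]
    exact hc0 y hy)
  have hα' : (0 : ℚ) ≤ -α := by
    have : (0 : ℤ) ≤ -α := by omega
    exact_mod_cast this
  refine ⟨A0 * (2 * c1 + Φ.E) + c1 + (-α) * (c1 + Φ.E) + 1, by positivity, fun m j ω hω => ?_⟩
  by_cases hω0 : ω D = 0
  · exact Or.inl hω0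
  right
  obtain ⟨X, hX⟩ : ∃ X : ℚ, X = κ * m + c1 * (j + 1) := ⟨_, rfl⟩
  have hX0 : 0 ≤ X := by
    rw [hX]
    positivity
  obtain ⟨q, hq1, hq2⟩ := exists_q hX0 Φ
  obtain ⟨μ0, hμ0⟩ : ∃ μ0 : ℤ,
    μ0 = ⌈c0 * m - A0 * (c1 * (j + 1) + (c1 * (j + 1) + Φ.E))⌉ := ⟨_, rfl⟩
  obtain ⟨μ, hμ⟩ : ∃ μ : ℤ, μ = μ0 - q * (Φ.ee 0 * v 0) := ⟨_, rfl⟩
  have h1 := hC m j q ω hω (by rw [← hX]; exact hq1) μ (fun a ha => ?_)
  · have hG0 : aeval C.x (Φ.G 0) ^ q ≠ 0 := pow_ne_zero _ (C.G_ne 0)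
    have hnum : ω D * C.Lam m ≠ 0 := mul_ne_zero hω0 (C.Lam_ne m)
    have h2 := h1.resolve_left (div_ne_zero hnum hG0)
    rw [Q.ord_div hnum hG0, Q.ord_pow, C.ord_G hdat, hμ] at h2
    have h3 : μ0 - c1 * (j + 1) + q * (Φ.E * α) ≤ Q.ord (ω D * C.Lam m) := by
      have h4 : ((q : ℕ) : ℤ) * (Φ.E * α + Φ.ee 0 * v 0) = q * (Φ.E * α) + q * (Φ.ee 0 * v 0) := by
        ring
      rw [h4] at h2
      linarith
    have h4 : c0 * m - A0 * (c1 * (j + 1) + (c1 * (j + 1) + Φ.E)) ≤ (μ0 : ℚ) := by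
      rw [hμ0]
      exact Int.le_ceil _
    have h5 : (α : ℚ) * (κ * m + c1 * (j + 1) + Φ.E) ≤ α * (Φ.E * q) := by
      rw [hX] at hq2
      nlinarith
    have h6 : ((μ0 - c1 * (j + 1) + q * (Φ.E * α) : ℤ) : ℚ) ≤ (Q.ord (ω D * C.Lam m) : ℚ) := by
      exact_mod_cast h3
    push_cast at h6
    have h8 : (0 : ℚ) ≤ j := by positivity
    have h9 : (0 : ℚ) ≤ A0 * Φ.E * j := by positivity
    have h10 : (0 : ℚ) ≤ (-α) * (Φ.E * j) := by positivity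
    nlinarith
  · have h2 := hmin (fun k => (yv Φ q a k : ℚ)) m (c1 * (j + 1)) (c1 * (j + 1) + Φ.E)
      (by positivity) (by positivity) (by positivity) (fun s => by
        change _ ≤ dotL (fun k => (s.1 k : ℚ)) _
        rw [dotq_yv, dot_yv]
        have h3 := ha s
        rw [hT'] at h3
        exact h3) (by
        rw [dotq_yv, deg_yv, abs_le]
        rw [hX] at hq1 hq2
        push_cast
        have h5 : (0 : ℚ) ≤ c1 * (j + 1) := by positivity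
        have h6 : (0 : ℚ) ≤ Φ.E := by positivity
        constructor <;> linarith)
    rw [dotq_yv] at h2
    have h3 : μ0 ≤ ∑ k, (v k : ℤ) * yv Φ q a k := by
      rw [hμ0, Int.ceil_le]
      exact h2
    have h4 : ∑ b, (a b : ℤ) * Q.ord (C.Y b) = ∑ k, (v k : ℤ) * yv Φ q a k -
        q * (Φ.ee 0 * v 0) := by
      rw [dot_yv]
      have h5 : ∀ b, (a b : ℤ) * Q.ord (C.Y b) = (Φ.ee b.succ * v b.succ : ℤ) * a b -
          (a b : ℤ) * (Φ.ee 0 * v 0) := by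
        intro b
        rw [C.ord_Y hdat]
        ring
      rw [Finset.sum_congr rfl fun b _ => h5 b, Finset.sum_sub_distrib, ← Finset.sum_mul]
      ring
    rw [h4, hμ]
    linarith

/-- **No sections.** -/
theorem sec_zeroB (hδ : C.Mono δ b c) (hb0 : b 0 = 0) (hb1 : ∀ v, b v ≤ 1)
    (hbg : ∀ (g : ℕ) (v : Fin (d + 2) → ℕ), 1 ≤ g → Adm C.M C.a v →
      1 - b (fun k => g * v k) ≤ g * (1 - b v)) (hc : 0 ≤ c) (hT : C.Tst b c S0) (S : Finset K)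
    {D : Fin (d + 1) → Derivation ℂ K K} (hD : ∀ i j, D i (C.u j) = if i = j then 1 else 0)
    (hemp : PiB C.M C.a Φ.dF b c = ∅) :
    ∃ A0 : ℚ, 0 ≤ A0 ∧ ∀ (m j : ℕ) (ω : (Fin (d + 1) → Derivation ℂ K K) → K),
      SecB (d + 1) C.LPl δ (pw S j) m ω → A0 * (j + 1) < m → ω D = 0 := by
  classical
  rw [C.PiB_eq hT] at hemp
  choose T hT' using fun s : {v // v ∈ S0} => C.exists_dir (hT.adm s.1 s.2)
  obtain ⟨Q, hQ⟩ := C.exists_div
  obtain ⟨c1, hC⟩ := C.sec_trB hδ hb0 hb1 hbg T S hD Q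
  obtain ⟨κ, hκ⟩ : ∃ κ : ℚ, κ = ∑ k, (Φ.dF k : ℚ) - (d + 2) + c := ⟨_, rfl⟩
  have hκ0 : 0 ≤ κ := by
    rw [hκ]
    linarith [kappa_nonneg Φ]
  have hκq : (∑ k, (Φ.dF k : ℚ) - ((d + 2 : ℕ) : ℚ)) + c = κ := by
    rw [hκ]
    push_cast
    ring
  rw [hκq] at hemp
  rw [← hκ] at hC
  obtain ⟨hdq, hnn⟩ := C.pol_dataB hT
  obtain ⟨A0, hA0, hmin⟩ := lp_minB (u := 0) (c0 := 1) hdq hnn (fun y hy => by
    rw [hemp] at hy
    exact absurd hy (Set.notMem_empty _))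
  refine ⟨A0 * (2 * c1 + Φ.E), by positivity, fun m j ω hω hm => ?_⟩
  obtain ⟨X, hX⟩ : ∃ X : ℚ, X = κ * m + c1 * (j + 1) := ⟨_, rfl⟩
  have hX0 : 0 ≤ X := by
    rw [hX]
    positivity
  obtain ⟨q, hq1, hq2⟩ := exists_q hX0 Φ
  by_contra hω0
  have hne : ω D * C.Lam m / aeval C.x (Φ.G 0) ^ q ≠ 0 :=
    div_ne_zero (mul_ne_zero hω0 (C.Lam_ne m)) (pow_ne_zero _ (C.G_ne 0))
  obtain ⟨μ, hμ⟩ : ∃ μ : ℤ, μ = Q.ord (ω D * C.Lam m / aeval C.x (Φ.G 0) ^ q) + c1 * (j + 1) + 1 :=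
    ⟨_, rfl⟩
  have h1 := (hC m j q ω hω (by rw [← hX]; exact hq1) μ (fun a ha => ?_)).resolve_left hne
  · omega
  · exfalso
    have h2 := hmin (fun k => (yv Φ q a k : ℚ)) m (c1 * (j + 1)) (c1 * (j + 1) + Φ.E)
      (by positivity) (by positivity) (by positivity) (fun s => by
        change _ ≤ dotL (fun k => (s.1 k : ℚ)) _
        rw [dotq_yv, dot_yv]
        have h3 := ha s
        rw [hT'] at h3
        exact h3) (by
        rw [dotq_yv, deg_yv, abs_le]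
        rw [hX] at hq1 hq2
        push_cast
        have h5 : (0 : ℚ) ≤ c1 * (j + 1) := by positivity
        have h6 : (0 : ℚ) ≤ Φ.E := by positivity
        constructor <;> linarith)
    have h3 : dotL (0 : Fin (d + 2) → ℚ) (fun k => (yv Φ q a k : ℚ)) = 0 := by
      rw [dotL_apply]
      simp
    rw [h3] at h2
    have h4 : (0 : ℚ) ≤ A0 * Φ.E * j := by positivity
    nlinarith

theorem mon_degB {T : ℕ} {w : Fin (d + 2) → ℤ} {p : Fin (d + 2) → ℚ}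
    (hp : p ∈ PiB C.M C.a Φ.dF b c) (hw : ∀ k, (w k : ℚ) = T * p k) :
    ∑ k, (Φ.dF k : ℚ) * w k = T * (∑ k, (Φ.dF k : ℚ) - (d + 2) + c) := by
  have h2 := hp.1
  have h3 : ∀ k, (Φ.dF k : ℚ) * w k = T * (Φ.dF k * p k) := by
    intro k
    rw [hw]
    ring
  rw [Finset.sum_congr rfl fun k _ => h3 k, ← Finset.mul_sum, h2]
  push_cast
  ring

/-- **The orders of the forms of the points of the polyhedron.** -/
theorem mon_lowB {T : ℕ} {w : Fin (d + 2) → ℤ} {p : Fin (d + 2) → ℚ}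
    (hp : p ∈ PiB C.M C.a Φ.dF b c) (hw : ∀ k, (w k : ℚ) = T * p k) {P : Place ℂ K}
    (hP : Divisorial (d + 1) P) {α : ℤ} {v : Fin (d + 2) → ℕ} (hdat : Dat P Φ.F Φ.dF C.x α v)
    {D : Fin (d + 1) → Derivation ℂ K K} (hD : ∀ l, DerReg P (D l)) :
    C.mon T w D = 0 ∨ ((T : ℚ) * (∑ k, (v k : ℚ) * p k + c * α - (if v = 0 then 0 else 1)) ≤
      P.ord (C.mon T w D) ∧ (P ∉ C.LPl →
      (T : ℚ) * (∑ k, (v k : ℚ) * p k + c * α - (if v = 0 then 0 else 1) + 1) ≤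
      P.ord (C.mon T w D))) := by
  have h1 := lc_reg_ord Φ.hL hP Φ.hh C.hx0 C.hbas C.fin_u hdat hD
  have hEord : P.ord (C.Ex T w) = ∑ k, (w k - T) * (Φ.dF k * α + v k) := by
    unfold Ex
    rw [ord_prod' P Finset.univ _ fun k _ => zpow_ne_zero _ (C.F_ne k)]
    exact Finset.sum_congr rfl fun k _ => by rw [P.ord_zpow, hdat.hv]
  have h3 : ((∑ k, (w k - T) * (Φ.dF k * α + v k) : ℤ) : ℚ) =
      α * (∑ k, (Φ.dF k : ℚ) * w k) + ∑ k, (w k : ℚ) * v k -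
      T * α * ∑ k, (Φ.dF k : ℚ) - T * ∑ k, (v k : ℚ) := by
    push_cast
    rw [Finset.mul_sum, Finset.mul_sum, Finset.mul_sum, ← Finset.sum_add_distrib,
      ← Finset.sum_sub_distrib, ← Finset.sum_sub_distrib]
    exact Finset.sum_congr rfl fun k _ => by ring
  have h7 : ∑ k, (w k : ℚ) * v k = (T : ℚ) * ∑ k, (v k : ℚ) * p k := by
    rw [Finset.mul_sum]
    refine Finset.sum_congr rfl fun k _ => ?_
    rw [hw]
    ring
  by_cases hm0 : C.mon T w D = 0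
  · exact Or.inl hm0
  right
  by_cases hT0 : T = 0
  · subst hT0
    have hw0 : w = 0 := by
      funext k
      have h4 := hw k
      simp only [Nat.cast_zero, zero_mul, Int.cast_eq_zero] at h4
      exact h4
    have h5 : C.mon 0 w D = 1 := by
      unfold mon Ex
      rw [hw0]
      simp
    rw [h5, P.ord_one]
    simp
  have hbw0 : bw D C.x ≠ 0 := by
    intro h0
    apply hm0
    unfold mon
    rw [h0, zero_pow hT0, zero_mul]
  have hord : P.ord (C.mon T w D) = T * P.ord (bw D C.x) + P.ord (C.Ex T w) := by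
    unfold mon
    rw [P.ord_mul (pow_ne_zero _ hbw0) (C.Ex_ne T w), P.ord_pow]
  rw [hord, hEord, Int.cast_add, h3, C.mon_degB hp hw, h7]
  have hT : (0 : ℚ) ≤ T := by positivity
  constructor
  · have h2 := h1.resolve_left hbw0
    have h2' : ((((d + 1 : ℕ) : ℤ) + 1) * α + ∑ k, (v k : ℤ) - (if v = 0 then 0 else 1) : ℤ) ≤
        (P.ord (bw D C.x) : ℤ) := h2
    have h2'' : ((d : ℚ) + 2) * α + ∑ k, (v k : ℚ) - (if v = 0 then 0 else 1) ≤
        (P.ord (bw D C.x) : ℚ) := by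
      have h4 : (((((d + 1 : ℕ) : ℤ) + 1) * α + ∑ k, (v k : ℤ) - (if v = 0 then 0 else 1) : ℤ) : ℚ) ≤
        (P.ord (bw D C.x) : ℚ) := by exact_mod_cast h2'
      push_cast at h4
      linarith
    have h4 := mul_le_mul_of_nonneg_left h2'' hT
    push_cast
    nlinarith
  · intro hPL
    have h2 : (((d : ℤ) + 2) * α + ∑ k, (v k : ℤ) - (if v = 0 then 0 else 1)) + 1 ≤
        P.ord (bw D C.x) := by
      by_contra hcon
      apply hPL
      intro α' v' hdat'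
      obtain ⟨rfl, rfl⟩ := dat_uniq hdat hdat'
      exact ⟨D, hD, hbw0, by omega⟩
    have h2'' : ((d : ℚ) + 2) * α + ∑ k, (v k : ℚ) - (if v = 0 then 0 else 1) + 1 ≤
        (P.ord (bw D C.x) : ℚ) := by
      have h4 : (((((d : ℤ) + 2) * α + ∑ k, (v k : ℤ) - (if v = 0 then 0 else 1)) + 1 : ℤ) : ℚ) ≤
        (P.ord (bw D C.x) : ℚ) := by exact_mod_cast h2
      push_cast at h4
      linarith
    have h4 := mul_le_mul_of_nonneg_left h2'' hT
    push_cast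
    nlinarith

/-- the order of the form, in terms of the vector -/
theorem mon_ordB {Q : Place ℂ K} {α : ℤ} {v : Fin (d + 2) → ℕ} (hdat : Dat Q Φ.F Φ.dF C.x α v)
    {D : Fin (d + 1) → Derivation ℂ K K} (hbw : bw D C.x = 1) {T : ℕ} {w : Fin (d + 2) → ℤ}
    {p : Fin (d + 2) → ℚ} (hp : p ∈ PiB C.M C.a Φ.dF b c) (hw : ∀ k, (w k : ℚ) = T * p k) :
    (Q.ord (C.mon T w D * C.Lam T) : ℚ) =
      T * (∑ k, (v k : ℚ) * p k + α * (∑ k, (Φ.dF k : ℚ) - (d + 2) + c)) := by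
  have h1 : C.mon T w D * C.Lam T = ∏ k, aeval C.x (Φ.F k) ^ (w k) := by
    unfold mon Lam Ex
    rw [hbw, one_pow, one_mul, ← Finset.prod_mul_distrib]
    refine Finset.prod_congr rfl fun k _ => ?_
    rw [← zpow_natCast, ← zpow_add₀ (C.F_ne k)]
    congr 1
    ring
  have h2 := C.mon_degB hp hw
  rw [h1, ord_prod' Q Finset.univ _ fun k _ => zpow_ne_zero _ (C.F_ne k)]
  have h3 : ((∑ k, Q.ord (aeval C.x (Φ.F k) ^ w k) : ℤ) : ℚ) =
      α * (∑ k, (Φ.dF k : ℚ) * w k) + ∑ k, (w k : ℚ) * v k := by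
    push_cast
    rw [Finset.mul_sum, ← Finset.sum_add_distrib]
    refine Finset.sum_congr rfl fun k _ => ?_
    rw [Q.ord_zpow, hdat.hv]
    push_cast
    ring
  rw [h3, h2]
  have h4 : ∑ k, (w k : ℚ) * v k = T * ∑ k, (v k : ℚ) * p k := by
    rw [Finset.mul_sum]
    refine Finset.sum_congr rfl fun k _ => ?_
    rw [hw]
    ring
  rw [h4]
  ring

/-- **The sections which compute the asymptotic orders.** -/
theorem zarB (hδ : C.Mono δ b c) (hb0 : b 0 = 0) (hb1 : ∀ v, b v ≤ 1)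
    (hbg : ∀ (g : ℕ) (v : Fin (d + 2) → ℕ), 1 ≤ g → Adm C.M C.a v →
      1 - b (fun k => g * v k) ≤ g * (1 - b v)) (hc : 0 ≤ c) (hT : C.Tst b c S0)
    (hne : (PiB C.M C.a Φ.dF b c).Nonempty)
    {D0 : Fin (d + 1) → Derivation ℂ K K} (hD : ∀ i j, D0 i (C.u j) = if i = j then 1 else 0) :
    ∃ T : ℕ, 0 < T ∧ ∃ (N : ℕ) (p : Fin (N + 1) → Fin (d + 2) → ℚ)
      (w : Fin (N + 1) → Fin (d + 2) → ℤ), (∀ i, p i ∈ PiB C.M C.a Φ.dF b c ∧
        (∀ k, (w i k : ℚ) = T * p i k) ∧ C.mon T (w i) D0 ≠ 0) ∧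
      ∀ Q : Place ℂ K, ∃ i, ∀ S : Finset K, ∃ A1 : ℚ, 0 ≤ A1 ∧
        ∀ (m j : ℕ) (ω : (Fin (d + 1) → Derivation ℂ K K) → K), ASecB (d + 1) C.LPl δ S m j ω →
        ω D0 = 0 ∨ (m : ℚ) * Q.ord (C.mon T (w i) D0) ≤ T * Q.ord (ω D0) + A1 * (j + 1) := by
  classical
  have hPi := C.PiB_eq hT
  obtain ⟨hd0, hv0⟩ := C.pol_dataB hT
  obtain ⟨V, hV⟩ : ∃ V : Set (Fin (d + 2) → ℚ), V = {p | VertB (fun k => (Φ.dF k : ℚ))
    (∑ k, (Φ.dF k : ℚ) - ((d + 2 : ℕ) : ℚ) + c) (fun s : {v // v ∈ S0} => vq s)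
      (fun s => 1 - b s.1) p} := ⟨_, rfl⟩
  have hVfin : V.Finite := by
    rw [hV]
    exact vertB_finite
  have hVne : V.Nonempty := by
    obtain ⟨p, hp, -⟩ := exists_vertB_min hd0 hv0 0 (by rw [← hPi]; exact hne)
    exact ⟨p, by rw [hV]; exact hp⟩
  -- an enumeration of the vertices
  obtain ⟨N, p, hp⟩ : ∃ (N : ℕ) (p : Fin (N + 1) → Fin (d + 2) → ℚ), Set.range p = V := by
    have hcard : hVfin.toFinset.card ≠ 0 := by
      rw [Finset.card_ne_zero]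
      exact (Set.Finite.toFinset_nonempty _).2 hVne
    obtain ⟨N, hN⟩ := Nat.exists_eq_succ_of_ne_zero hcard
    let e := (hVfin.toFinset.equivFinOfCardEq hN).symm
    refine ⟨N, fun i => (e i : Fin (d + 2) → ℚ), ?_⟩
    ext x
    constructor
    · rintro ⟨i, rfl⟩
      exact hVfin.mem_toFinset.1 (e i).2
    · intro hx
      obtain ⟨i, hi⟩ := e.surjective ⟨x, hVfin.mem_toFinset.2 hx⟩
      exact ⟨i, congrArg Subtype.val hi⟩
  have hpP : ∀ i, p i ∈ PiB C.M C.a Φ.dF b c := fun i => by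
    have h1 : p i ∈ V := by
      rw [← hp]
      exact ⟨i, rfl⟩
    rw [hV] at h1
    rw [hPi]
    exact h1.1
  obtain ⟨T, hTpos, hden⟩ := exists_den fun x : Fin (N + 1) × Fin (d + 2) => p x.1 x.2
  choose w' hw' using hden
  obtain ⟨w, hwdef⟩ : ∃ w : Fin (N + 1) → Fin (d + 2) → ℤ, w = fun i k => w' (i, k) := ⟨_, rfl⟩
  have hw : ∀ i k, (w i k : ℚ) = T * p i k := by
    intro i k
    rw [hwdef]
    exact (hw' (i, k)).symm
  have hbw0 : bw D0 C.x = 1 := by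
    rw [Pool.Agent.W930.CG.bw_one D0 C.x C.hx0]
    change (Matrix.of fun i j => D0 i (C.u j)).det = 1
    have h1 : (Matrix.of fun i j => D0 i (C.u j)) = (1 : Matrix (Fin (d + 1)) (Fin (d + 1)) K) := by
      ext i j
      rw [Matrix.of_apply, Matrix.one_apply, hD]
    rw [h1, Matrix.det_one]
  have hm0 : ∀ i, C.mon T (w i) D0 ≠ 0 := by
    intro i
    unfold mon
    rw [hbw0, one_pow, one_mul]
    exact C.Ex_ne T (w i)
  refine ⟨T, hTpos, N, p, w, fun i => ⟨hpP i, hw i, hm0 i⟩, fun Q => ?_⟩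
  obtain ⟨α, v, hα, hdat⟩ := C.exists_dat Q
  obtain ⟨p0, hp0V, hp0min⟩ := exists_vertB_min hd0 hv0 (fun k => (v k : ℚ))
    (by rw [← hPi]; exact hne)
  rw [← hPi] at hp0min
  obtain ⟨i, rfl⟩ : ∃ i, p i = p0 := by
    have h1 : p0 ∈ V := by
      rw [hV]
      exact hp0V
    rw [← hp] at h1
    exact h1
  refine ⟨i, fun S => ?_⟩
  obtain ⟨A1, hA1, hlow⟩ := C.sec_lowB hδ hb0 hb1 hbg hc hT S hD hdat hα
    (c0 := ∑ k, (v k : ℚ) * p i k)
    (fun y' hy' => by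
      have h1 := hp0min y' hy'
      rwa [dotL_apply, dotL_apply] at h1)
  refine ⟨T * A1, by positivity, fun m j ω hω => ?_⟩
  rcases hlow m j ω (asecB_sec hω) with h1 | h1
  · exact Or.inl h1
  by_cases hω0 : ω D0 = 0
  · exact Or.inl hω0
  right
  have h2 := C.mon_ordB hdat hbw0 (hpP i) (hw i)
  rw [Q.ord_mul (hm0 i) (C.Lam_ne T), C.ord_Lam] at h2
  rw [Q.ord_mul hω0 (C.Lam_ne m), C.ord_Lam] at h1
  push_cast at h1 h2
  have h3 : (0 : ℚ) ≤ T := by positivity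
  have h4 := mul_le_mul_of_nonneg_left h1 h3
  have h5 : (m : ℚ) * ((Q.ord (C.mon T (w i) D0) : ℚ) +
      T * ∑ t, (Q.ord (aeval C.x (Φ.F t)) : ℚ)) =
      m * (T * (∑ k, (v k : ℚ) * p i k + α * (∑ k, (Φ.dF k : ℚ) - (d + 2) + c))) := by
    rw [h2]
  nlinarith

end Cv

end Pool.Agent.J4.H19.LC
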