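import Pool.Agent.J4.H19.LP.Mod
import Pool.Agent.J4.H19.LC.Mak

/-!
The linear change of the coordinates, for pairs.
-/

set_option autoImplicit false
set_option linter.overlappingInstances false
set_option linter.unusedSectionVars false
set_option maxHeartbeats 400000

open FF MvPolynomial Pool.Agent.W603.LV Pool.Agent.W602.GT Pool.Agent.W602.Cov
open Pool.Agent.TH122.AB Pool.Agent.Y169.CH

open Pool.Agent.W602.Cov.G Pool.Agent.TH152.AC
open Pool.Agent.Y169.TH Pool.Agent.W619.PQ

namespace Pool.Agent.J4.H19.LC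

variable {d R : ℕ} {K : Type} [Field K] [Algebra ℂ K]

/-- **The cover, and the change of the coordinates.** -/
theorem exists_cvx {x : Fin (d + 2) → K} (hx0 : x 0 ≠ 0)
    (hbas : IsTranscendenceBasis ℂ fun b : Fin (d + 1) => x b.succ / x 0)
    {F : Fin (d + 2) → MvPolynomial (Fin (d + 2)) ℂ} {dF : Fin (d + 2) → ℕ} (hd : ∀ k, 0 < dF k)
    (hh : ∀ k, (F k).IsHomogeneous (dF k)) (hF0 : ∀ k, F k ≠ 0) (hN : Noc F) (hL : Lca F) {z : Fin R → K} {M : Fin R → ℕ}
    (hM : ∀ j, 0 < M j) {a : Fin R → Fin (d + 2) → ℕ}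
    (hz : ∀ j, z j ^ M j = ∏ k, (aeval x (F k) / x 0 ^ dF k) ^ a j k)
    (hdiv : ∀ j, M j ∣ ∑ k, a j k * dF k)
    (hgen : IntermediateField.adjoin ℂ
      (Set.range (fun b : Fin (d + 1) => x b.succ / x 0) ∪ Set.range z) = ⊤) :
    ∃ Φ : Arr (d + 1), Φ.dF = dF ∧ ∃ C : Cv Φ K R, C.M = M ∧ C.a = a ∧ ∃ ρ : K, ρ ≠ 0 ∧
      (∀ (P : Place ℂ K) (α : ℤ) (v : Fin (d + 2) → ℕ), Dat P F dF x α v →
        Dat P Φ.F Φ.dF C.x (α - P.ord ρ) v) ∧
      (∀ E : Fin (d + 1) → Derivation ℂ K K, bw E x = ρ ^ (d + 2) * bw E C.x) ∧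
      (∀ k, aeval x (F k) ≠ 0) ∧ ∀ l, x l ≠ 0 := by
  classical
  obtain ⟨q, hq, hqc⟩ := exists_sh2 hh hF0
  obtain ⟨x', hx'⟩ : ∃ x' : Fin (d + 2) → K, x' = shx q x := ⟨_, rfl⟩
  obtain ⟨F', hF'⟩ : ∃ F' : Fin (d + 2) → MvPolynomial (Fin (d + 2)) ℂ,
    F' = fun k => shF q 1 (F k) := ⟨_, rfl⟩
  have hxx' : ∀ j, x j = x' j + algebraMap ℂ K (q j) * x' (Fin.last (d + 1)) := by
    intro j
    rw [hx', shx_last hq]
    unfold shx
    ring
  have hev : ∀ k, aeval x' (F' k) = aeval x (F k) := fun k => by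
    rw [hx', hF']
    have h1 := aeval_shF hq x 1 (F k)
    rwa [map_one, one_mul] at h1
  have hx'0 : x' 0 ≠ 0 := by
    intro h0
    rw [hx'] at h0
    have h1 : aeval (fun b : Fin (d + 1) => x b.succ / x 0) (1 - C (q 0) * X (Fin.last d)) = 0 := by
      rw [map_sub, map_one, map_mul, aeval_C, aeval_X]
      have h3 : x 0 - algebraMap ℂ K (q 0) * x (Fin.last (d + 1)) = 0 := h0
      have h4 : (Fin.last d).succ = Fin.last (d + 1) := rfl
      rw [h4]
      field_simp
      linear_combination h3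
    have h2 := (injective_iff_map_eq_zero _).1 hbas.1 _ h1
    have h3 := congrArg (eval (0 : Fin (d + 1) → ℂ)) h2
    simp at h3
  obtain ⟨ρ, hρ⟩ : ∃ ρ : K, ρ = x 0 / x' 0 := ⟨_, rfl⟩
  have hρ0 : ρ ≠ 0 := by
    rw [hρ]
    exact div_ne_zero hx0 hx'0
  have hkey : ∀ L : IntermediateField ℂ K, (∀ b : Fin (d + 1), x' b.succ / x' 0 ∈ L) → ∀ j,
      x j / x' 0 ∈ L := by
    intro L hL j
    have h1 : ∀ j, x' j / x' 0 ∈ L := by
      intro j
      refine Fin.cases ?_ (fun l => hL l) j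
      rw [div_self hx'0]
      exact L.one_mem
    have h2 : x j / x' 0 = x' j / x' 0 +
        algebraMap ℂ K (q j) * (x' (Fin.last (d + 1)) / x' 0) := by
      rw [hxx' j]
      ring
    rw [h2]
    exact L.add_mem (h1 j) (L.mul_mem (L.algebraMap_mem _) (h1 _))
  have hkey2 : ∀ L : IntermediateField ℂ K, (∀ b : Fin (d + 1), x' b.succ / x' 0 ∈ L) →
      ∀ b : Fin (d + 1), x b.succ / x 0 ∈ L := by
    intro L hL b
    have h1 : x b.succ / x 0 = (x b.succ / x' 0) / (x 0 / x' 0) :=
      (div_div_div_cancel_right₀ hx'0 _ _).symm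
    rw [h1]
    exact L.div_mem (hkey L hL _) (hkey L hL _)
  obtain ⟨X, hX⟩ : ∃ X : Fin (d + 2) → K, X = fun j => x' j / x' 0 := ⟨_, rfl⟩
  have hX0 : X 0 = 1 := by
    rw [hX]
    exact div_self hx'0
  have hXs : ∀ b : Fin (d + 1), X b.succ = x' b.succ / x' 0 := fun b => by rw [hX]
  have hbas' : IsTranscendenceBasis ℂ fun b : Fin (d + 1) => X b.succ := by
    refine basis_of_le hbas ?_
    rw [IntermediateField.adjoin_le_iff]
    rintro _ ⟨b, rfl⟩
    refine hkey2 _ (fun b' => ?_) b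
    rw [← hXs]
    exact IntermediateField.subset_adjoin ℂ _ ⟨b', rfl⟩
  have hFX : ∀ k, aeval X (F' k) = aeval x (F k) / x' 0 ^ dF k := by
    intro k
    have h1 : (F' k).IsHomogeneous (dF k) := by
      rw [hF']
      exact shF_hom _ _ (hh k)
    rw [eq_div_iff (pow_ne_zero _ hx'0), mul_comm, ← aeval_smul_form h1, ← hev]
    congr 2
    funext l
    rw [hX, mul_div_cancel₀ _ hx'0]
  obtain ⟨s, hs⟩ : ∃ s : Fin R → ℕ, s = fun j => (∑ k, a j k * dF k) / M j := ⟨_, rfl⟩
  have hsM : ∀ j, s j * M j = ∑ k, a j k * dF k := fun j => by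
    rw [hs]
    exact Nat.div_mul_cancel (hdiv j)
  let Φ : Arr (d + 1) :=
    { F := F'
      dF := dF
      hd := hd
      hh := fun k => by
        rw [hF']
        exact shF_hom _ _ (hh k)
      hN := by
        rw [hF']
        exact noc_sh hq hN
      hL := by
        rw [hF']
        exact lca_sh hq hL
      hI := fun k => ⟨Finsupp.single (Fin.last (d + 1)) (dF k), by
        rw [mem_support_iff, hF']
        exact hqc k, by
        rw [Finsupp.single_apply, if_neg]
        exact (Fin.succ_ne_zero (Fin.last d))⟩ }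
  have hXne : ∀ l, X l ≠ 0 := by
    intro l
    refine Fin.cases (by rw [hX0]; exact one_ne_zero) (fun b => ?_) l
    exact hbas'.1.ne_zero b
  have hx'ne : ∀ l, x' l ≠ 0 := by
    intro l h0
    apply hXne l
    rw [hX]
    change x' l / x' 0 = 0
    rw [h0, zero_div]
  refine ⟨Φ, rfl, ⟨X, hX0, hbas', fun j => z j * ρ ^ s j, M, hM, a, fun j => ?_, hdiv, ?_⟩, rfl, rfl,
    x' 0, hx'0, ?_, ?_, ?_, ?_⟩
  · change (z j * ρ ^ s j) ^ M j = ∏ k, aeval X (F' k) ^ a j k
    rw [mul_pow, hz, ← pow_mul, hsM, ← Finset.prod_pow_eq_pow_sum, ← Finset.prod_mul_distrib]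
    refine Finset.prod_congr rfl fun k _ => ?_
    rw [hFX, mul_comm (a j k), pow_mul ρ, ← mul_pow, hρ]
    congr 1
    rw [div_pow]
    field_simp
  · rw [eq_top_iff, ← hgen, IntermediateField.adjoin_le_iff]
    obtain ⟨L, hL⟩ : ∃ L, L = IntermediateField.adjoin ℂ
      (Set.range (fun b : Fin (d + 1) => X b.succ) ∪ Set.range fun j => z j * ρ ^ s j) := ⟨_, rfl⟩
    rw [← hL]
    have hu : ∀ b : Fin (d + 1), x' b.succ / x' 0 ∈ L := fun b => by
      rw [hL, ← hXs]
      exact IntermediateField.subset_adjoin ℂ _ (Or.inl ⟨b, rfl⟩)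
    rintro _ (⟨b, rfl⟩ | ⟨j, rfl⟩)
    · exact hkey2 L hu b
    · have h1 : z j * ρ ^ s j ∈ L := by
        rw [hL]
        exact IntermediateField.subset_adjoin ℂ _ (Or.inr ⟨j, rfl⟩)
      have h2 : ρ ^ s j ∈ L := by
        have h3 : ρ ∈ L := by
          rw [hρ]
          exact hkey L hu 0
        exact pow_mem h3 _
      have h3 := L.div_mem h1 h2
      rwa [mul_div_cancel_right₀ _ (pow_ne_zero _ hρ0)] at h3
  · -- the data
    intro P α v hdat
    have hordX : ∀ l, P.ord (X l) = P.ord (x' l) - P.ord (x' 0) := by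
      intro l
      rw [hX]
      exact P.ord_div (hx'ne l) hx'0
    have hx'x : ∀ j, x' j = x j - algebraMap ℂ K (q j) * x (Fin.last (d + 1)) := by
      intro j
      rw [hx']
      rfl
    have hg1 : ∀ j, Ge P α (x j) := fun j => Or.inr (hdat.ha1 j)
    have hg2 : ∀ j, Ge P α (x' j) := by
      intro j
      rw [hx'x]
      refine (hg1 j).sub ?_
      have h4 := (Ge.const (P := P) (q j)).mul (hg1 (Fin.last (d + 1)))
      simpa using h4
    refine ⟨hXne, fun l => ?_, ?_, fun k => ?_, fun k => ?_⟩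
    · change α - P.ord (x' 0) ≤ P.ord (X l)
      rw [hordX]
      have := (hg2 l).resolve_left (hx'ne l)
      linarith
    · by_contra hcon
      push Not at hcon
      have h1 : ∀ j, Ge P (α + 1) (x' j) := by
        intro j
        right
        have h2 := hcon j
        change P.ord (X j) ≠ _ at h2
        rw [hordX] at h2
        have h3 := (hg2 j).resolve_left (hx'ne j)
        omega
      obtain ⟨j, hj⟩ := hdat.ha2
      have h2 : Ge P (α + 1) (x j) := by
        rw [hxx']
        refine (h1 j).add ?_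
        have h4 := (Ge.const (P := P) (q j)).mul (h1 (Fin.last (d + 1)))
        simpa using h4
      have h3 := h2.resolve_left (hdat.hx j)
      omega
    · change aeval X (F' k) ≠ 0
      rw [hFX]
      exact div_ne_zero (hdat.hFx k) (pow_ne_zero _ hx'0)
    · change P.ord (aeval X (F' k)) = _
      rw [hFX, P.ord_div (hdat.hFx k) (pow_ne_zero _ hx'0), P.ord_pow, hdat.hv]
      change _ = (dF k : ℤ) * (α - P.ord (x' 0)) + v k
      ring
  · -- the form
    intro E
    have h1 : bw E x' = bw E x := by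
      have h2 := bw_shx hq E x'
      have h3 : (fun j => x' j + algebraMap ℂ K (q j) * x' (Fin.last (d + 1))) = x :=
        funext fun j => (hxx' j).symm
      rw [h3] at h2
      exact h2.symm
    have h4 : x' = fun j => x' 0 * X j := by
      funext j
      rw [hX, mul_div_cancel₀ _ hx'0]
    rw [← h1]
    conv_lhs => rw [h4]
    exact (bwa (d + 1) K).1 E (x' 0) X
  · intro k h0
    have h1 : aeval X (F' k) = 0 := by rw [hFX, h0, zero_div]
    have h2 : (F' k).IsHomogeneous (dF k) := by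
      rw [hF']
      exact shF_hom _ _ (hh k)
    have h3 : F' k ≠ 0 := by
      intro h4
      have h5 := hqc k
      rw [hF'] at h4
      change shF q 1 (F k) = 0 at h4
      rw [h4, coeff_zero] at h5
      exact h5 rfl
    have h4 := deh_ne h2 h3
    have h5 : aeval (fun b : Fin (d + 1) => X b.succ) (deh (F' k)) = aeval X (F' k) := by
      unfold deh
      rw [← AlgHom.comp_apply, comp_aeval]
      congr 2
      funext j
      refine Fin.cases ?_ (fun b => ?_) j
      · simp [hX0]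
      · simp
    rw [h1] at h5
    exact h4 ((injective_iff_map_eq_zero _).1 hbas'.1 _ h5)
  · intro l
    refine Fin.cases hx0 (fun b => ?_) l
    intro h0
    have h1 := hbas.1.ne_zero b
    rw [h0, zero_div] at h1
    exact h1 rfl

end Pool.Agent.J4.H19.LC
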