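import Pool.Agent.J4.H19.LP.Main

/-!
The log discrepancy exists if there is a generator.
-/

set_option autoImplicit false

open FF MvPolynomial Pool.Agent.W602.GT Pool.Agent.W603.LV Pool.Agent.W619.PQ
open Pool.Agent.TH122.AB Pool.Agent.Y172 Pool.Agent.R887

namespace Pool.Agent.J4.H19.LC

theorem ld_exists {K : Type} [Field K] [Algebra ℂ K] {N n r : ℕ} {y : Fin (N + 1) → K}
    {Δ : Place ℂ K → ℚ} (hy : NormalModel y) (hn : Algebra.trdeg ℂ K = n)
    {x : Fin n → K} (hx : IsTranscendenceBasis ℂ x) {D : Fin n → Derivation ℂ K K}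
    (hD : ∀ i j, D i (x j) = if i = j then 1 else 0) (hr : 0 < r) {Q : Place ℂ K}
    (hQ : Divisorial n Q) {η : (Fin n → Derivation ℂ K K) → K} (hη : IsPluri r η)
    (hηP : ∀ P, IsPrimeDivisor y P → Through y P Q → OrdEq P η (-(r * Δ P))) :
    ∃ a, HasLD y n Δ r Q a := by
  classical
  obtain ⟨hfr, ⟨c, hc⟩, hne⟩ := exists_cc hy hn hx hD
  obtain ⟨P0, hP0, hP0t⟩ := exists_through hy Q
  have hηD : η D ≠ 0 := hne _ η hη P0 _ (hηP P0 hP0 hP0t)
  have hr0 : (r : ℚ) ≠ 0 := by exact_mod_cast hr.ne'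
  refine ⟨1 + (r * c Q + Q.ord (η D)) / r, η, hη, hηP, ((hc Q hQ _ η hη _).2 hηD).2 ?_⟩
  field_simp
  ring

end Pool.Agent.J4.H19.LC
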