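import Pool.Agent.J4.H19.LC.GenQ
import Pool.Agent.J4.H19.LP.Core

/-!
Base points of sections which compute the asymptotic order at a place, if `K_X + Δ` is nef.
-/

set_option autoImplicit false
set_option linter.overlappingInstances false
set_option linter.unusedSectionVars false
set_option maxHeartbeats 400000

open FF MvPolynomial Pool.Agent.W602.GT Pool.Agent.W603.LV Pool.Agent.W619.PQ
open Pool.Agent.TH122.AB Pool.Agent.Y172 Pool.Agent.R887

namespace Pool.Agent.J4.H19.LC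

section

variable {K : Type} [Field K] [Algebra ℂ K] {N n : ℕ} {y : Fin (N + 1) → K} {Δ : Place ℂ K → ℚ}

/-- `r (K + Δ)` has a generator at the centre of `Q`, and the log discrepancy along `Q` is `a` -/
def HasLD (y : Fin (N + 1) → K) (n : ℕ) (Δ : Place ℂ K → ℚ) (r : ℕ) (Q : Place ℂ K) (a : ℚ) :
    Prop :=
  ∃ η : (Fin n → Derivation ℂ K K) → K, IsPluri r η ∧
    (∀ P, IsPrimeDivisor y P → Through y P Q → OrdEq P η (-(r * Δ P))) ∧ OrdEq Q η (r * (a - 1))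

/-- a unit of the local ring -/
theorem unit_localRing (hy : NormalModel y) {Q : Place ℂ K} {f : K} (hf0 : f ≠ 0)
    (h : ∀ P, IsPrimeDivisor y P → Through y P Q → P.ord f = 0) : Q.ord f = 0 := by
  have h1 := localRing_reg (mem_localRing_of_reg hy (Q := Q) (f := f) fun P hP hPt =>
    Or.inr (h P hP hPt).ge)
  have h2 := localRing_reg (mem_localRing_of_reg hy (Q := Q) (f := f⁻¹) fun P hP hPt =>
    Or.inr (by rw [P.ord_inv, h P hP hPt, neg_zero]))
  rw [Q.reg_iff hf0] at h1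
  rw [Q.reg_iff (inv_ne_zero hf0), Q.ord_inv] at h2
  omega

/-- log discrepancies are unique -/
theorem ld_uniq (hy : NormalModel y) (hn : Algebra.trdeg ℂ K = n) {x : Fin n → K}
    (hx : IsTranscendenceBasis ℂ x) {D : Fin n → Derivation ℂ K K}
    (hD : ∀ i j, D i (x j) = if i = j then 1 else 0) {r r' : ℕ} (hr : 0 < r) (hr' : 0 < r')
    {Q : Place ℂ K} (hQ : Divisorial n Q) {a a' : ℚ} (h : HasLD y n Δ r Q a)
    (h' : HasLD y n Δ r' Q a') : a = a' := by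
  classical
  obtain ⟨hfr, ⟨c, hc⟩, hne⟩ := exists_cc hy hn hx hD
  have hdiv : ∀ P, IsPrimeDivisor y P → Divisorial n P := fun P hP => hP.divisorial hy hn
  obtain ⟨η, hη, hηP, hηQ⟩ := h
  obtain ⟨η', hη', hηP', hηQ'⟩ := h'
  have hD1 : η D ≠ 0 := hne r η hη Q _ hηQ
  have hD2 : η' D ≠ 0 := hne r' η' hη' Q _ hηQ'
  have hf0 : η D ^ r' / η' D ^ r ≠ 0 := div_ne_zero (pow_ne_zero _ hD1) (pow_ne_zero _ hD2)
  have hord : ∀ P : Place ℂ K, P.ord (η D ^ r' / η' D ^ r) = r' * P.ord (η D) -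
      r * P.ord (η' D) := by
    intro P
    rw [P.ord_div (pow_ne_zero _ hD1) (pow_ne_zero _ hD2), P.ord_pow, P.ord_pow]
  have h1 : Q.ord (η D ^ r' / η' D ^ r) = 0 := by
    refine unit_localRing hy hf0 fun P hP hPt => ?_
    have h2 := ((hc P (hdiv P hP) _ η hη _).2 hD1).1 (hηP P hP hPt)
    have h3 := ((hc P (hdiv P hP) _ η' hη' _).2 hD2).1 (hηP' P hP hPt)
    have h4 : ((P.ord (η D ^ r' / η' D ^ r) : ℤ) : ℚ) = 0 := by
      rw [hord]
      push_cast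
      have h5 : (P.ord (η D) : ℚ) = -(r * Δ P) - r * c P := by linarith
      have h6 : (P.ord (η' D) : ℚ) = -(r' * Δ P) - r' * c P := by linarith
      rw [h5, h6]
      ring
    exact_mod_cast h4
  rw [hord] at h1
  have h2 := ((hc Q hQ _ η hη _).2 hD1).1 hηQ
  have h3 := ((hc Q hQ _ η' hη' _).2 hD2).1 hηQ'
  have h4 : (r' : ℚ) * Q.ord (η D) - r * Q.ord (η' D) = 0 := by exact_mod_cast h1
  have h5 : (Q.ord (η D) : ℚ) = r * (a - 1) - r * c Q := by linarith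
  have h6 : (Q.ord (η' D) : ℚ) = r' * (a' - 1) - r' * c Q := by linarith
  rw [h5, h6] at h4
  have h7 : (r : ℚ) * r' * (a - a') = 0 := by linarith
  have h8 : (r : ℚ) * r' ≠ 0 := by
    have h9 : (r : ℚ) ≠ 0 := by exact_mod_cast hr.ne'
    have h10 : (r' : ℚ) ≠ 0 := by exact_mod_cast hr'.ne'
    exact mul_ne_zero h9 h10
  have h9 := (mul_eq_zero.1 h7).resolve_left h8
  linarith

/-- the log discrepancy of a prime divisor -/
theorem ld_prime {r : ℕ} (hr : 0 < r) (hy : NormalModel y) (hn : Algebra.trdeg ℂ K = n)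
    {x : Fin n → K}
    (hx : IsTranscendenceBasis ℂ x) {D : Fin n → Derivation ℂ K K}
    (hD : ∀ i j, D i (x j) = if i = j then 1 else 0)
    {P : Place ℂ K} (hP : IsPrimeDivisor y P) {a : ℚ}
    (h : HasLD y n Δ r P a) : a = 1 - Δ P := by
  obtain ⟨η, hη, hηP, hηQ⟩ := h
  obtain ⟨hfr, ⟨c, hc⟩, hne⟩ := exists_cc hy hn hx hD
  have hdiv : Divisorial n P := hP.divisorial hy hn
  have h1 := hηP P hP fun f hf => localRing_reg hf
  have hD1 : η D ≠ 0 := hne r η hη P _ hηQ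
  have h2 := ((hc P hdiv _ η hη _).2 hD1).1 h1
  have h3 := ((hc P hdiv _ η hη _).2 hD1).1 hηQ
  have h4 : (r : ℚ) * (a - 1 + Δ P) = 0 := by linarith
  have h5 : (r : ℚ) ≠ 0 := by exact_mod_cast hr.ne'
  have h6 := (mul_eq_zero.1 h4).resolve_left h5
  linarith

/-- if `K + Δ` is nef, then some multiple is a Cartier divisor -/
theorem ld_of_nef (hy : NormalModel y) (hn : Algebra.trdeg ℂ K = n) {x : Fin n → K}
    (hx : IsTranscendenceBasis ℂ x) {D : Fin n → Derivation ℂ K K}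
    (hD : ∀ i j, D i (x j) = if i = j then 1 else 0) (hnef : LogNef y n Δ) :
    ∃ r : ℕ, 0 < r ∧ ∃ A : Place ℂ K → ℚ, ∀ Q, Divisorial n Q → HasLD y n Δ r Q (A Q) ∧
      ∃ z : ℤ, (r : ℚ) * A Q = z := by
  classical
  obtain ⟨hfr, ⟨c, hc⟩, hne⟩ := exists_cc hy hn hx hD
  have hdiv : ∀ P, IsPrimeDivisor y P → Divisorial n P := fun P hP => hP.divisorial hy hn
  obtain ⟨i, hi⟩ := hy.ne
  obtain ⟨m, hm, hgen⟩ := hnef i hi 1 le_rfl
  refine ⟨m, hm, ?_⟩
  have hex : ∀ Q : Place ℂ K, ∃ a : ℚ, Divisorial n Q → HasLD y n Δ m Q a ∧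
      ∃ z : ℤ, (m : ℚ) * a = z := by
    intro Q
    by_cases hQ : Divisorial n Q
    · obtain ⟨ω, hω, hωg⟩ := hgen Q hQ
      rw [mul_one] at hω hωg
      obtain ⟨l, hl⟩ := exists_centred hy Q
      have hyl : y i / y l ≠ 0 := div_ne_zero hi hl.1
      obtain ⟨η, hηd⟩ : ∃ η : (Fin n → Derivation ℂ K K) → K,
        η = fun E => ω E * (y i / y l) ^ m := ⟨_, rfl⟩
      have hη : IsPluri m η := by
        intro B E
        rw [hηd]
        dsimp only
        rw [hω.1 B E, mul_assoc]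
      obtain ⟨P0, hP0, hP0t⟩ := exists_through hy Q
      have hωD : ω D ≠ 0 := hne _ ω hω.1 P0 _ (hωg P0 l hP0 hP0t (hP0t.centred hl))
      have hηD : η D ≠ 0 := by
        rw [hηd]
        exact mul_ne_zero hωD (pow_ne_zero _ hyl)
      have hord : ∀ P : Place ℂ K, P.ord (η D) = P.ord (ω D) + m * P.ord (y i / y l) := by
        intro P
        rw [hηd]
        change P.ord (ω D * (y i / y l) ^ m) = _
        rw [P.ord_mul hωD (pow_ne_zero _ hyl), P.ord_pow]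
      refine ⟨1 + (m * c Q + Q.ord (η D) : ℤ) / m, fun _ => ⟨⟨η, hη, ?_, ?_⟩, ?_⟩⟩
      · intro P hP hPt
        refine ((hc P (hdiv P hP) _ η hη _).2 hηD).2 ?_
        have h1 := ((hc P (hdiv P hP) _ ω hω.1 _).2 hωD).1 (hωg P l hP hPt (hPt.centred hl))
        rw [hord]
        push_cast
        linarith
      · refine ((hc Q hQ _ η hη _).2 hηD).2 ?_
        have hm0 : (m : ℚ) ≠ 0 := by
          have : m ≠ 0 := by omega
          exact_mod_cast this
        push_cast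
        field_simp
        ring
      · refine ⟨m + (m * c Q + Q.ord (η D)), ?_⟩
        have hm0 : (m : ℚ) ≠ 0 := by
          have : m ≠ 0 := by omega
          exact_mod_cast this
        push_cast
        field_simp
    · exact ⟨0, fun h => absurd h hQ⟩
  choose A hA using hex
  exact ⟨A, hA⟩

/-- twisted sections are sections on all models -/
theorem twist_secB (hy : NormalModel y) (hn : Algebra.trdeg ℂ K = n) {x : Fin n → K}
    (hx : IsTranscendenceBasis ℂ x) {D : Fin n → Derivation ℂ K K}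
    (hD : ∀ i j, D i (x j) = if i = j then 1 else 0) {r : ℕ} (hr : 0 < r) {A : Place ℂ K → ℚ}
    (hA : ∀ Q, Divisorial n Q → HasLD y n Δ r Q (A Q)) {W : Set (Place ℂ K)} {δ : Place ℂ K → ℚ}
    (hδ : ∀ Q ∈ W, Divisorial n Q → 1 - A Q ≤ δ Q) {i : Fin (N + 1)} (hi : y i ≠ 0) {M m : ℕ}
    {ω : (Fin n → Derivation ℂ K K) → K} (hω : IsTwistedSectionP y i n Δ M m ω) :
    ASecB n W δ (quo y i) M m ω := by
  classical
  have hess := hy.ess
  obtain ⟨hfr, ⟨c, hc⟩, hne⟩ := exists_cc hy hn hx hD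
  have hdiv : ∀ P, IsPrimeDivisor y P → Divisorial n P := fun P hP => hP.divisorial hy hn
  refine ⟨hω.1, fun Q' hQ'W hQ' D' hD' => ?_⟩
  obtain ⟨η', hη', hη'eq, hη'Q⟩ := hA Q' hQ'
  have hη'D : η' D ≠ 0 := hne r η' hη' Q' _ hη'Q
  obtain ⟨l, hl⟩ := exists_centred hy Q'
  have hyl : y i / y l ≠ 0 := div_ne_zero hi hl.1
  by_cases hωD : ω D = 0
  · left
    rw [pluri_zero hfr hω.1 hωD]
    rfl
  have hr' : (0 : ℚ) < r := by exact_mod_cast hr
  have hf : ω D ^ r * (y i / y l) ^ (m * r) / η' D ^ M ∈ localRing y Q' := by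
    refine mem_localRing_of_reg hy fun P hP hPt => ?_
    right
    rw [P.ord_div (mul_ne_zero (pow_ne_zero _ hωD) (pow_ne_zero _ hyl)) (pow_ne_zero _ hη'D),
      P.ord_mul (pow_ne_zero _ hωD) (pow_ne_zero _ hyl), P.ord_pow, P.ord_pow, P.ord_pow]
    have h1 := ((hc P (hdiv P hP) _ ω hω.1 _).1.1 (hω.2 P l hP (hPt.centred hl))).resolve_left hωD
    have h2 := ((hc P (hdiv P hP) _ η' hη' _).2 hη'D).1 (hη'eq P hP hPt)
    have h7 : (P.ord (η' D) : ℚ) = -(r * Δ P) - r * c P := by linarith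
    have h6 := mul_le_mul_of_nonneg_left h1 hr'.le
    have h8 : (0 : ℚ) ≤ ((r * P.ord (ω D) + (m * r : ℕ) * P.ord (y i / y l) - M * P.ord (η' D) : ℤ) :
      ℚ) := by
      push_cast
      rw [h7]
      linarith
    exact_mod_cast h8
  have h1 := localRing_reg hf
  rw [Q'.reg_iff (div_ne_zero (mul_ne_zero (pow_ne_zero _ hωD) (pow_ne_zero _ hyl))
    (pow_ne_zero _ hη'D)),
    Q'.ord_div (mul_ne_zero (pow_ne_zero _ hωD) (pow_ne_zero _ hyl)) (pow_ne_zero _ hη'D),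
    Q'.ord_mul (pow_ne_zero _ hωD) (pow_ne_zero _ hyl), Q'.ord_pow, Q'.ord_pow, Q'.ord_pow] at h1
  have h2 := ((hc Q' hQ' _ η' hη' _).2 hη'D).1 hη'Q
  have h4 : OrdGe Q' ω (M * (A Q' - 1) - m * Q'.ord (y i / y l)) := by
    refine (hc Q' hQ' _ ω hω.1 _).1.2 (Or.inr ?_)
    have h3 : (0 : ℚ) ≤ ((r * Q'.ord (ω D) + (m * r : ℕ) * Q'.ord (y i / y l) -
      M * Q'.ord (η' D) : ℤ) : ℚ) := by exact_mod_cast h1
    push_cast at h3
    have h7 : (Q'.ord (η' D) : ℚ) = r * (A Q' - 1) - r * c Q' := by linarith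
    rw [h7] at h3
    refine le_of_mul_le_mul_left ?_ hr'
    linarith
  rcases h4 D' hD' with h5 | h5
  · exact Or.inl h5
  right
  refine ⟨y l / y i, ?_, div_ne_zero hl.1 hi, ?_⟩
  · exact mem_quo y i l
  · have h6 : Q'.ord (y l / y i) = - Q'.ord (y i / y l) := by
      rw [Q'.ord_div hl.1 hi, Q'.ord_div hi hl.1]
      ring
    rw [h6]
    have h7 := mul_le_mul_of_nonneg_left (hδ Q' hQ'W hQ') (show (0 : ℚ) ≤ M by positivity)
    push_cast
    linarith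

/-- **Base points.** Let `K_X + Δ` be nef, and let the order at `Q` of the section `ω0` of
`T (K_X + Δ)` be, relatively, the smallest one asymptotically. Then the centre of `Q` is not a base
point. -/
theorem semi_of_lowB (hy : NormalModel y) (hn : Algebra.trdeg ℂ K = n) {x : Fin n → K}
    (hx : IsTranscendenceBasis ℂ x) {D : Fin n → Derivation ℂ K K}
    (hD : ∀ i j, D i (x j) = if i = j then 1 else 0) {r : ℕ} (hr : 0 < r) {A : Place ℂ K → ℚ}
    (hA : ∀ Q, Divisorial n Q → HasLD y n Δ r Q (A Q)) {W : Set (Place ℂ K)} {δ : Place ℂ K → ℚ}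
    (hδ : ∀ Q ∈ W, Divisorial n Q → 1 - A Q ≤ δ Q)
    (hnef : LogNef y n Δ) {Q : Place ℂ K} (hQ : Divisorial n Q) {T : ℕ}
    {ω0 : (Fin n → Derivation ℂ K K) → K} (hω0 : IsPluri T ω0)
    (hreg : ∀ P, IsPrimeDivisor y P → OrdGe P ω0 (-(T * Δ P))) (hω00 : ω0 D ≠ 0)
    (hlow : ∀ S : Finset K, ∃ A1 : ℚ, 0 ≤ A1 ∧ ∀ (m j : ℕ) (ω : (Fin n → Derivation ℂ K K) → K),
      ASecB n W δ S m j ω → ω D = 0 ∨
        (m : ℚ) * Q.ord (ω0 D) ≤ T * Q.ord (ω D) + A1 * (j + 1)) :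
    ∀ P, IsPrimeDivisor y P → Through y P Q → OrdEq P ω0 (-(T * Δ P)) := by
  classical
  have hess := hy.ess
  obtain ⟨hfr, ⟨c, hc⟩, hne⟩ := exists_cc hy hn hx hD
  have hdiv : ∀ P, IsPrimeDivisor y P → Divisorial n P := fun P hP => hP.divisorial hy hn
  obtain ⟨i, hi⟩ := hy.ne
  obtain ⟨A1, hA1, hlow⟩ := hlow (quo y i)
  obtain ⟨η, hη, hηeq, hηQ⟩ := hA Q hQ
  have hηD : η D ≠ 0 := hne r η hη Q _ hηQ
  obtain ⟨q, hq⟩ := exists_nat_gt (2 * r * A1)
  have hq1 : 1 ≤ q := by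
    have h1 : (0 : ℚ) ≤ 2 * r * A1 := by positivity
    have h2 : (0 : ℚ) < q := lt_of_le_of_lt h1 hq
    exact_mod_cast h2
  obtain ⟨m, hm, hgen⟩ := hnef i hi q hq1
  obtain ⟨ω, hω, hωg⟩ := hgen Q hQ
  have hsec := twist_secB hy hn hx hD hr hA hδ hi hω
  obtain ⟨l, hl⟩ := exists_centred hy Q
  have hyl : y i / y l ≠ 0 := div_ne_zero hi hl.1
  obtain ⟨P0, hP0, hP0t⟩ := exists_through hy Q
  have hωD : ω D ≠ 0 := hne _ ω hω.1 P0 _ (hωg P0 l hP0 hP0t (hP0t.centred hl))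
  have hr' : (0 : ℚ) < r := by exact_mod_cast hr
  -- the generators
  have hPη : ∀ P, IsPrimeDivisor y P → Through y P Q →
      (P.ord (η D) : ℚ) = -(r * Δ P) - r * c P := by
    intro P hP hPt
    have h2 := ((hc P (hdiv P hP) _ η hη _).2 hηD).1 (hηeq P hP hPt)
    linarith
  obtain ⟨f2, hf2⟩ : ∃ f2, f2 = ω D ^ r * (y i / y l) ^ (m * r) / η D ^ (m * q) := ⟨_, rfl⟩
  have hf20 : f2 ≠ 0 := by
    rw [hf2]
    exact div_ne_zero (mul_ne_zero (pow_ne_zero _ hωD) (pow_ne_zero _ hyl)) (pow_ne_zero _ hηD)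
  have hordf2 : ∀ P : Place ℂ K, P.ord f2 = r * P.ord (ω D) + (m * r : ℕ) * P.ord (y i / y l) -
      (m * q : ℕ) * P.ord (η D) := by
    intro P
    rw [hf2, P.ord_div (mul_ne_zero (pow_ne_zero _ hωD) (pow_ne_zero _ hyl)) (pow_ne_zero _ hηD),
      P.ord_mul (pow_ne_zero _ hωD) (pow_ne_zero _ hyl), P.ord_pow, P.ord_pow, P.ord_pow]
  have hf2P : ∀ P, IsPrimeDivisor y P → Through y P Q → P.ord f2 = 0 := by
    intro P hP hPt
    have h1 := ((hc P (hdiv P hP) _ ω hω.1 _).2 hωD).1 (hωg P l hP hPt (hPt.centred hl))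
    have h4 := hPη P hP hPt
    have h5 : (P.ord (ω D) : ℚ) = -((m * q : ℕ) * Δ P) - m * P.ord (y i / y l) -
      ((m * q : ℕ) : ℚ) * c P := by linarith
    have h6 : ((P.ord f2 : ℤ) : ℚ) = 0 := by
      rw [hordf2]
      push_cast at h5 ⊢
      rw [h4, h5]
      ring
    exact_mod_cast h6
  have hf2Q : Q.ord f2 = 0 := unit_localRing hy hf20 hf2P
  obtain ⟨f1, hf1⟩ : ∃ f1, f1 = ω0 D ^ r / η D ^ T := ⟨_, rfl⟩
  have hf10 : f1 ≠ 0 := by
    rw [hf1]
    exact div_ne_zero (pow_ne_zero _ hω00) (pow_ne_zero _ hηD)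
  have hordf1 : ∀ P : Place ℂ K, P.ord f1 = r * P.ord (ω0 D) - T * P.ord (η D) := by
    intro P
    rw [hf1, P.ord_div (pow_ne_zero _ hω00) (pow_ne_zero _ hηD), P.ord_pow, P.ord_pow]
  have hf1mem : f1 ∈ localRing y Q := by
    refine mem_localRing_of_reg hy fun P hP hPt => ?_
    right
    have h1 := ((hc P (hdiv P hP) _ ω0 hω0 _).1.1 (hreg P hP)).resolve_left hω00
    have h4 := hPη P hP hPt
    have h5 := mul_le_mul_of_nonneg_left h1 hr'.le
    have h6 : (0 : ℚ) ≤ ((P.ord f1 : ℤ) : ℚ) := by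
      rw [hordf1]
      push_cast
      rw [h4]
      linarith
    exact_mod_cast h6
  have hf1Q : Q.ord f1 = 0 := by
    have h1 := (Q.reg_iff hf10).1 (localRing_reg hf1mem)
    have h2 := (hlow (m * q) m ω hsec).resolve_left hωD
    have h3 := hf2Q
    rw [hordf2] at h3
    have h4 : 0 ≤ Q.ord (y i / y l) := (Q.reg_iff hyl).1 (hl.2 i)
    by_contra hne1
    have h5 : 1 ≤ Q.ord f1 := by omega
    have h6 : ((m * q : ℕ) : ℤ) * Q.ord f1 ≤
        r * (((m * q : ℕ) : ℤ) * Q.ord (ω0 D) - T * Q.ord (ω D)) := by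
      rw [hordf1]
      have h7 : (0 : ℤ) ≤ (T : ℤ) * ((m * r : ℕ) * Q.ord (y i / y l)) := by positivity
      have h8 : ((m * q : ℕ) : ℤ) * Q.ord (η D) = r * Q.ord (ω D) +
        (m * r : ℕ) * Q.ord (y i / y l) := by linarith
      have h9 : ((m * q : ℕ) : ℤ) * (r * Q.ord (ω0 D) - T * Q.ord (η D)) =
          r * (((m * q : ℕ) : ℤ) * Q.ord (ω0 D)) - T * (((m * q : ℕ) : ℤ) * Q.ord (η D)) := by ring
      rw [h9, h8]
      nlinarith
    have h7 : ((m * q : ℕ) : ℚ) * Q.ord f1 ≤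
        r * (((m * q : ℕ) : ℚ) * Q.ord (ω0 D) - T * Q.ord (ω D)) := by exact_mod_cast h6
    have h8 : (1 : ℚ) ≤ Q.ord f1 := by exact_mod_cast h5
    have h9 : (1 : ℚ) ≤ m := by exact_mod_cast hm
    have h10 : (0 : ℚ) ≤ r := by positivity
    have h11 : (r : ℚ) * (((m * q : ℕ) : ℚ) * Q.ord (ω0 D) - T * Q.ord (ω D)) ≤
        r * (A1 * (m + 1)) := mul_le_mul_of_nonneg_left (by linarith) h10
    have h12 : (r : ℚ) * (A1 * (m + 1)) ≤ (2 * r * A1) * m := by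
      have : (0 : ℚ) ≤ r * A1 := by positivity
      nlinarith
    have h13 : ((m * q : ℕ) : ℚ) * 1 ≤ ((m * q : ℕ) : ℚ) * Q.ord f1 :=
      mul_le_mul_of_nonneg_left h8 (by positivity)
    push_cast at h13 h7 h11
    have h14 : (m : ℚ) * q ≤ (2 * r * A1) * m := by linarith
    have h15 : (2 * r * A1) * m < q * m := mul_lt_mul_of_pos_right hq (by linarith)
    linarith
  intro P hP hPt
  have h1 := hPt _ (inv_localRing hf1mem hf10 hf1Q)
  have h2 := hPt _ hf1mem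
  rw [P.reg_iff (inv_ne_zero hf10), P.ord_inv] at h1
  rw [P.reg_iff hf10] at h2
  have h3 : P.ord f1 = 0 := by omega
  rw [hordf1] at h3
  refine ((hc P (hdiv P hP) _ ω0 hω0 _).2 hω00).2 ?_
  have h4 := hPη P hP hPt
  have h5 : (r : ℚ) * P.ord (ω0 D) - T * P.ord (η D) = 0 := by exact_mod_cast h3
  rw [h4] at h5
  have h7 : (r : ℚ) * (T * c P + P.ord (ω0 D) + T * Δ P) = 0 := by linarith
  have h8 := (mul_eq_zero.1 h7).resolve_left hr'.ne'
  linarith

/-- nef divisors are pseudo-effective -/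
theorem psef_of_nefB (hy : NormalModel y) (hn : Algebra.trdeg ℂ K = n) {x : Fin n → K}
    (hx : IsTranscendenceBasis ℂ x) {D : Fin n → Derivation ℂ K K}
    (hD : ∀ i j, D i (x j) = if i = j then 1 else 0) (hnef : LogNef y n Δ)
    {Q : Place ℂ K} (hQ : Divisorial n Q) {i : Fin (N + 1)} (hi : y i ≠ 0) {q : ℕ} (hq : 1 ≤ q) :
    ∃ m : ℕ, 1 ≤ m ∧ ∃ ω : (Fin n → Derivation ℂ K K) → K, ω D ≠ 0 ∧
      IsTwistedSectionP y i n Δ (m * q) m ω := by
  classical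
  obtain ⟨hfr, ⟨c, hc⟩, hne⟩ := exists_cc hy hn hx hD
  obtain ⟨m, hm, hgen⟩ := hnef i hi q hq
  obtain ⟨ω, hω, hωg⟩ := hgen Q hQ
  obtain ⟨P0, hP0, hP0t⟩ := exists_through hy Q
  obtain ⟨l, hl⟩ := exists_centred hy Q
  have hωD : ω D ≠ 0 := hne _ ω hω.1 P0 _ (hωg P0 l hP0 hP0t (hP0t.centred hl))
  exact ⟨m, hm, ω, hωD, hω⟩

end

end Pool.Agent.J4.H19.LC
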