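import Pool.Agent.J4.H19.LP.Crd

/-!
Pairs on models of covers which are branched along log canonical hypersurfaces: the main theorems in
terms of the given coordinates.
-/

set_option autoImplicit false
set_option linter.overlappingInstances false
set_option linter.unusedSectionVars false
set_option maxHeartbeats 400000

open FF MvPolynomial IntermediateField Pool.Agent.W603.LV Pool.Agent.W619.PQ
open Pool.Agent.W602.GT Pool.Agent.TH122.AB
open Pool.Agent.Y169.CH Pool.Agent.W602.Cov.G Pool.Agent.W602.Cov Pool.Agent.TH152.AC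
open Pool.Agent.Y169.TH Pool.Agent.Y172 Pool.Agent.R887

namespace Pool.Agent.J4.H19.LC

section

variable {n : ℕ} {K : Type} [Field K] [Algebra ℂ K]

/-- the order of the point -/
noncomputable def mo (x : Fin (n + 1) → K) (P : Place ℂ K) : ℤ :=
  Finset.univ.inf' Finset.univ_nonempty fun l => P.ord (x l)

/-- the multiplicities of the hypersurfaces -/
noncomputable def mu (F : Fin (n + 1) → MvPolynomial (Fin (n + 1)) ℂ) (dF : Fin (n + 1) → ℕ)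
    (x : Fin (n + 1) → K) (P : Place ℂ K) (k : Fin (n + 1)) : ℤ :=
  P.ord (aeval x (F k)) - dF k * mo x P

/-- the canonical form has the smallest possible order at `P` -/
def LogPl (F : Fin (n + 1) → MvPolynomial (Fin (n + 1)) ℂ) (dF : Fin (n + 1) → ℕ)
    (x : Fin (n + 1) → K) (P : Place ℂ K) : Prop :=
  ∃ E : Fin n → Derivation ℂ K K, (∀ i, DerReg P (E i)) ∧ bw E x ≠ 0 ∧
    P.ord (bw E x) + (if ∀ k, mu F dF x P k = 0 then 0 else 1) ≤
      (n + 1) * mo x P + ∑ k, mu F dF x P k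

variable {F : Fin (n + 1) → MvPolynomial (Fin (n + 1)) ℂ} {dF : Fin (n + 1) → ℕ}
  {x : Fin (n + 1) → K}

theorem mu_nonneg (hh : ∀ k, (F k).IsHomogeneous (dF k)) (hx : ∀ l, x l ≠ 0)
    (hF : ∀ k, aeval x (F k) ≠ 0) (P : Place ℂ K) (k : Fin (n + 1)) : 0 ≤ mu F dF x P k := by
  obtain ⟨l, -, hl⟩ := Finset.exists_mem_eq_inf' (Finset.univ_nonempty (α := Fin (n + 1)))
    fun l => P.ord (x l)
  have hmo : mo x P = P.ord (x l) := hl
  obtain ⟨y, hy⟩ : ∃ y : Fin (n + 1) → K, y = fun b => x b / x l := ⟨_, rfl⟩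
  have hyr : ∀ b, P.Reg (y b) := by
    intro b
    right
    rw [hy]
    dsimp only
    rw [P.ord_div (hx b) (hx l), ← hmo]
    have h1 : mo x P ≤ P.ord (x b) := Finset.inf'_le _ (Finset.mem_univ b)
    linarith
  have hFk : aeval x (F k) = x l ^ dF k * aeval y (F k) :=
    scale' (hx l) (fun b => by rw [hy]) (hh k)
  have hFy : aeval y (F k) ≠ 0 := by
    intro h0
    apply hF k
    rw [hFk, h0, mul_zero]
  have h1 := (reg_aeval hyr (F k)).resolve_left hFy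
  unfold mu
  rw [hFk, P.ord_mul (pow_ne_zero _ (hx l)) hFy, P.ord_pow, hmo]
  linarith

theorem exists_datx (hh : ∀ k, (F k).IsHomogeneous (dF k)) (hx : ∀ l, x l ≠ 0)
    (hF : ∀ k, aeval x (F k) ≠ 0) (P : Place ℂ K) :
    Dat P F dF x (mo x P) fun k => (mu F dF x P k).toNat := by
  obtain ⟨l, -, hl⟩ := Finset.exists_mem_eq_inf' (Finset.univ_nonempty (α := Fin (n + 1)))
    fun l => P.ord (x l)
  refine ⟨hx, fun b => Finset.inf'_le _ (Finset.mem_univ b), ⟨l, hl.symm⟩, hF, fun k => ?_⟩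
  rw [Int.toNat_of_nonneg (mu_nonneg hh hx hF P k)]
  unfold mu
  ring

end

variable {d R : ℕ} {K : Type} [Field K] [Algebra ℂ K] {N : ℕ} {y : Fin (N + 1) → K}
  {Δ : Place ℂ K → ℚ}

/-- the conditions for a pair -/
structure PrX (F : Fin (d + 2) → MvPolynomial (Fin (d + 2)) ℂ) (dF : Fin (d + 2) → ℕ)
    (x : Fin (d + 2) → K) (y : Fin (N + 1) → K) (Δ : Place ℂ K → ℚ) : Prop where
  a0 : ∀ Q, Divisorial (d + 1) Q → LogPl F dF x Q → ∀ (r : ℕ) (a : ℚ), 0 < r →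
    HasLD y (d + 1) Δ r Q a → 0 ≤ a
  a1 : ∀ Q, Divisorial (d + 1) Q → LogPl F dF x Q → (∀ k, mu F dF x Q k = 0) →
    ∀ (r : ℕ) (a : ℚ), 0 < r → HasLD y (d + 1) Δ r Q a → 1 ≤ a
  a2 : ∀ P, IsPrimeDivisor y P → LogPl F dF x P → (∃ k, mu F dF x P k ≠ 0) →
    ∀ Q, Divisorial (d + 1) Q → LogPl F dF x Q → ∀ g : ℕ, 1 ≤ g →
      (∀ k, mu F dF x P k = g * mu F dF x Q k) → ∀ (r : ℕ) (a : ℚ), 0 < r →
        HasLD y (d + 1) Δ r Q a → 1 - Δ P ≤ g * a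
  a3 : ∀ P, IsPrimeDivisor y P → (¬ LogPl F dF x P ∨ ∀ k, mu F dF x P k = 0) → 0 ≤ Δ P
  a5 : ∃ C0 : ℕ, ∀ P, IsPrimeDivisor y P → 1 - Δ P ≤ C0

/-- a form has an integral order -/
theorem ld_int {n r : ℕ} {Q : Place ℂ K} {a : ℚ} (h : HasLD y n Δ r Q a) :
    ∃ z : ℤ, (r : ℚ) * a = z := by
  obtain ⟨η, -, -, -, E, -, -, h1⟩ := h
  refine ⟨Q.ord (η E) + r, ?_⟩
  push_cast
  linarith

/-- the comparison of the conditions -/
theorem pr_of_prx {F : Fin (d + 2) → MvPolynomial (Fin (d + 2)) ℂ} {dF : Fin (d + 2) → ℕ}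
    (hh : ∀ k, (F k).IsHomogeneous (dF k))
    {x : Fin (d + 2) → K} {Φ : Arr (d + 1)} (C : Cv Φ K R)
    {ρ : K} (hρ : ρ ≠ 0)
    (h1 : ∀ (P : Place ℂ K) (α : ℤ) (v : Fin (d + 2) → ℕ), Dat P F dF x α v →
        Dat P Φ.F Φ.dF C.x (α - P.ord ρ) v)
    (h2 : ∀ E : Fin (d + 1) → Derivation ℂ K K, bw E x = ρ ^ (d + 2) * bw E C.x)
    (hF : ∀ k, aeval x (F k) ≠ 0) (hx : ∀ l, x l ≠ 0) (h : PrX F dF x y Δ)
    {r : ℕ} (hr : 0 < r) {A : Place ℂ K → ℚ}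
    (hA : ∀ Q, Divisorial (d + 1) Q → HasLD y (d + 1) Δ r Q (A Q)) :
    ∃ C0, C.Pr y Δ A C0 := by
  classical
  have hvec : ∀ P : Place ℂ K, C.vec P = fun k => (mu F dF x P k).toNat := fun P =>
    C.vec_eq (h1 P _ _ (exists_datx hh hx hF P))
  have hvk : ∀ (P : Place ℂ K) k, ((C.vec P k : ℕ) : ℤ) = mu F dF x P k := by
    intro P k
    rw [hvec]
    exact Int.toNat_of_nonneg (mu_nonneg hh hx hF P k)
  have hv0 : ∀ P : Place ℂ K, C.vec P = 0 ↔ ∀ k, mu F dF x P k = 0 := by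
    intro P
    constructor
    · intro h0 k
      rw [← hvk, h0]
      rfl
    · intro h0
      funext k
      have h3 := hvk P k
      rw [h0] at h3
      rw [Pi.zero_apply]
      exact_mod_cast h3
  have hLP : ∀ P : Place ℂ K, P ∈ C.LPl ↔ LogPl F dF x P := by
    intro P
    have hbw : ∀ E : Fin (d + 1) → Derivation ℂ K K, bw E C.x ≠ 0 →
        P.ord (bw E x) = (d + 2) * P.ord ρ + P.ord (bw E C.x) := by
      intro E hE
      rw [h2, P.ord_mul (pow_ne_zero _ hρ) hE, P.ord_pow]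
      push_cast
      rfl
    have hbw0 : ∀ E : Fin (d + 1) → Derivation ℂ K K, bw E C.x ≠ 0 ↔ bw E x ≠ 0 := by
      intro E
      rw [h2]
      constructor
      · exact fun h => mul_ne_zero (pow_ne_zero _ hρ) h
      · exact fun h => right_ne_zero_of_mul h
    have hsum : ∑ k, (C.vec P k : ℤ) = ∑ k, mu F dF x P k :=
      Finset.sum_congr rfl fun k _ => hvk P k
    have hite : (if C.vec P = 0 then (0 : ℤ) else 1) =
        if ∀ k, mu F dF x P k = 0 then 0 else 1 := by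
      by_cases h0 : C.vec P = 0
      · rw [if_pos h0, if_pos ((hv0 P).1 h0)]
      · rw [if_neg h0, if_neg fun h3 => h0 ((hv0 P).2 h3)]
    have hd := h1 P _ _ (exists_datx hh hx hF P)
    rw [← hvec] at hd
    constructor
    · intro hP
      obtain ⟨E, hE1, hE2, hE3⟩ := hP _ _ hd
      refine ⟨E, hE1, (hbw0 E).1 hE2, ?_⟩
      rw [hbw E hE2]
      rw [hsum, hite] at hE3
      push_cast
      linarith
    · rintro ⟨E, hE1, hE2, hE3⟩ α v hdat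
      obtain ⟨rfl, rfl⟩ := dat_uniq hd hdat
      refine ⟨E, hE1, (hbw0 E).2 hE2, ?_⟩
      rw [hbw E ((hbw0 E).2 hE2)] at hE3
      rw [hsum, hite]
      push_cast at hE3
      linarith
  obtain ⟨C0, hC0⟩ := h.a5
  refine ⟨C0 + 1, ⟨?_, ?_, ?_, ?_, ?_, ?_⟩⟩
  · intro Q hQL hQ
    exact h.a0 Q hQ ((hLP Q).1 hQL) r _ hr (hA Q hQ)
  · intro Q hQL hQ hv
    exact h.a1 Q hQ ((hLP Q).1 hQL) ((hv0 Q).1 hv) r _ hr (hA Q hQ)
  · intro P Q hP hPL hv hQL hQ g hg hPQ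
    refine h.a2 P hP ((hLP P).1 hPL) ?_ Q hQ ((hLP Q).1 hQL) g hg ?_ r _ hr (hA Q hQ)
    · by_contra hcon
      push Not at hcon
      exact hv ((hv0 P).2 hcon)
    · intro k
      rw [← hvk, ← hvk, hPQ]
      push_cast
      rfl
  · rintro P hP (h3 | h3)
    · exact h.a3 P hP (Or.inl fun h4 => h3 ((hLP P).2 h4))
    · exact h.a3 P hP (Or.inr ((hv0 P).1 h3))
  · omega
  · intro P hP
    have h3 := hC0 P hP
    push_cast
    linarith

section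

variable {x : Fin (d + 2) → K} (hx0 : x 0 ≠ 0)
    (hbas : IsTranscendenceBasis ℂ fun b : Fin (d + 1) => x b.succ / x 0)
    {F : Fin (d + 2) → MvPolynomial (Fin (d + 2)) ℂ} {dF : Fin (d + 2) → ℕ} (hd : ∀ k, 0 < dF k)
    (hh : ∀ k, (F k).IsHomogeneous (dF k)) (hF0 : ∀ k, F k ≠ 0) (hN : Noc F) (hL : Lca F)
    {z : Fin R → K} {M : Fin R → ℕ} (hM : ∀ j, 0 < M j) {a : Fin R → Fin (d + 2) → ℕ}
    (hz : ∀ j, z j ^ M j = ∏ k, (aeval x (F k) / x 0 ^ dF k) ^ a j k)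
    (hdiv : ∀ j, M j ∣ ∑ k, a j k * dF k)
    (hgen : IntermediateField.adjoin ℂ
      (Set.range (fun b : Fin (d + 1) => x b.succ / x 0) ∪ Set.range z) = ⊤)

include hx0 hbas hd hh hF0 hN hL hM hz hdiv hgen

/-- **Nef log canonical divisors are semiample.** -/
theorem main_semiP (hy : NormalModel y) (h : PrX F dF x y Δ) (hnef : LogNef y (d + 1) Δ) :
    ∃ T : ℕ, 0 < T ∧ ∀ Q : Place ℂ K, Divisorial (d + 1) Q →
      ∃ ω : (Fin (d + 1) → Derivation ℂ K K) → K, IsPluri T ω ∧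
        (∀ P, IsPrimeDivisor y P → OrdGe P ω (-(T * Δ P))) ∧
        ∀ P, IsPrimeDivisor y P → Through y P Q → OrdEq P ω (-(T * Δ P)) := by
  classical
  obtain ⟨Φ, rfl, C, rfl, rfl, ρ, hρ, h1, h2, hF, hx⟩ :=
    exists_cvx hx0 hbas hd hh hF0 hN hL hM hz hdiv hgen
  have hn : Algebra.trdeg ℂ K = ((d + 1 : ℕ) : Cardinal) := by
    rw [← C.u_bas.cardinalMk_eq_trdeg, Cardinal.mk_fin]
  obtain ⟨D0, hD0⟩ := exists_dual C.u_bas
  have hD : ∀ i j, D0 i (C.u j) = if i = j then 1 else 0 := by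
    intro i j
    have h1 := congrFun (congrFun hD0 i) j
    rw [Matrix.of_apply, Matrix.one_apply] at h1
    exact h1
  obtain ⟨r, hr, A, hA⟩ := ld_of_nef hy hn C.u_bas hD hnef
  obtain ⟨C0, hP⟩ := pr_of_prx hh C hρ h1 h2 hF hx h hr fun Q hQ => (hA Q hQ).1
  exact C.semi_mod hy hn hP hr (fun Q hQ => (hA Q hQ).1) (fun Q hQ => (hA Q hQ).2) hnef

/-- **Zariski decompositions.** -/
theorem main_zarP (hy : NormalModel y) (h : PrX F dF x y Δ) {r : ℕ} (hr : 0 < r)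
    (hCar : ∀ Q, Divisorial (d + 1) Q → ∃ a, HasLD y (d + 1) Δ r Q a)
    (hps : ∃ i, y i ≠ 0 ∧ ∀ M' : ℕ, 1 ≤ M' → ∃ j : ℕ, 1 ≤ j ∧
      ∃ ω : (Fin (d + 1) → Derivation ℂ K K) → K, ω ≠ 0 ∧
        IsTwistedSectionP y i (d + 1) Δ (j * M') j ω) :
    ∃ T : ℕ, 0 < T ∧ ∃ (N' : ℕ) (s : Fin (N' + 1) → (Fin (d + 1) → Derivation ℂ K K) → K),
      (∀ i, s i ≠ 0 ∧ IsPluri T (s i) ∧ ∀ P, IsPrimeDivisor y P → OrdGe P (s i) (-(T * Δ P))) ∧
      ∀ Q : Place ℂ K, ∃ i, ∀ i0, y i0 ≠ 0 → ∃ C1 : ℕ,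
        ∀ (m j : ℕ) (ω : (Fin (d + 1) → Derivation ℂ K K) → K),
          IsTwistedSectionP y i0 (d + 1) Δ m j ω → ∀ D, ω D ≠ 0 →
          (m : ℤ) * Q.ord (s i D) ≤ (T : ℤ) * Q.ord (ω D) + C1 * (j + 1) := by
  classical
  obtain ⟨Φ, rfl, C, rfl, rfl, ρ, hρ, h1, h2, hF, hx⟩ :=
    exists_cvx hx0 hbas hd hh hF0 hN hL hM hz hdiv hgen
  have hn : Algebra.trdeg ℂ K = ((d + 1 : ℕ) : Cardinal) := by
    rw [← C.u_bas.cardinalMk_eq_trdeg, Cardinal.mk_fin]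
  have hAex : ∃ A : Place ℂ K → ℚ, ∀ Q, Divisorial (d + 1) Q → HasLD y (d + 1) Δ r Q (A Q) := by
    have h3 : ∀ Q : Place ℂ K, ∃ a : ℚ, Divisorial (d + 1) Q → HasLD y (d + 1) Δ r Q a := by
      intro Q
      by_cases hQ : Divisorial (d + 1) Q
      · obtain ⟨a, ha⟩ := hCar Q hQ
        exact ⟨a, fun _ => ha⟩
      · exact ⟨0, fun h => absurd h hQ⟩
    choose A hA using h3
    exact ⟨A, hA⟩
  obtain ⟨A, hA⟩ := hAex
  obtain ⟨C0, hP⟩ := pr_of_prx hh C hρ h1 h2 hF hx h hr hA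
  obtain ⟨T, hTpos, N', s, D0, δ, hD, hδA, hs, hQ⟩ := C.zar_mod hy hn hP hr hA
    (fun Q hQ => ld_int (hA Q hQ)) (by
      intro D hD
      obtain ⟨i, hi, hM'⟩ := hps
      refine ⟨i, hi, fun M' hM1 => ?_⟩
      obtain ⟨j, hj, ω, hω0, hω⟩ := hM' M' hM1
      refine ⟨j, hj, ω, fun h0 => hω0 ?_, hω⟩
      have hfr : IsFrame D := fun F => ⟨fun j => F (C.u j),
        (Pool.Agent.W73.PG.PULL.expand C.u C.u_bas D hD F).symm⟩
      exact pluri_zero hfr hω.1 h0)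
  refine ⟨T, hTpos, N', s, fun i => ⟨?_, (hs i).1, (hs i).2.2⟩, fun Q => ?_⟩
  · intro h0
    exact (hs i).2.1 (congrFun h0 D0)
  obtain ⟨i, hi⟩ := hQ Q
  refine ⟨i, fun i0 hi0 => ?_⟩
  obtain ⟨A1, hA1, hlow⟩ := hi (quo y i0)
  obtain ⟨C1, hC1⟩ := exists_nat_ge A1
  refine ⟨C1, fun m j ω hω D hωD => ?_⟩
  have hpl := Pool.Agent.Y172.pluri_coord C.u_bas hD hω.1 D
  have hpl' := Pool.Agent.Y172.pluri_coord C.u_bas hD (hs i).1 D
  obtain ⟨ε, hε⟩ : ∃ ε : K, ε = (Matrix.of fun i j => D i (C.u j)).det := ⟨_, rfl⟩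
  rw [← hε] at hpl hpl'
  have hω0 : ω D0 ≠ 0 := by
    intro h0
    rw [h0, mul_zero] at hpl
    exact hωD hpl
  -- the inequality for the frame `D0`
  have hmain : (m : ℤ) * Q.ord (s i D0) ≤ (T : ℤ) * Q.ord (ω D0) + C1 * (j + 1) := by
    rcases hlow m j ω (twist_secB hy hn C.u_bas hD hr hA hδA hi0 hω) with h1 | h1
    · exact absurd h1 hω0
    have h6 : A1 * (j + 1) ≤ (C1 : ℚ) * (j + 1) :=
      mul_le_mul_of_nonneg_right hC1 (by positivity)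
    have h7 : ((m * Q.ord (s i D0) : ℤ) : ℚ) ≤
        ((T * Q.ord (ω D0) + C1 * (j + 1) : ℤ) : ℚ) := by
      push_cast
      linarith
    exact_mod_cast h7
  by_cases hε0 : ε = 0
  · by_cases hm : m = 0
    · subst hm
      rw [pow_zero, one_mul] at hpl
      rw [hpl]
      simpa using hmain
    · rw [hε0, zero_pow hm, zero_mul] at hpl
      exact absurd hpl hωD
  · rw [hpl, hpl', Q.ord_mul (pow_ne_zero _ hε0) hω0, Q.ord_mul (pow_ne_zero _ hε0) (hs i).2.1,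
      Q.ord_pow, Q.ord_pow]
    nlinarith

end

/-- the log discrepancies of log canonical pairs -/
theorem ld_lc {n r : ℕ} (hy : NormalModel y) (hn : Algebra.trdeg ℂ K = n)
    {x : Fin n → K} (hx : IsTranscendenceBasis ℂ x) {D : Fin n → Derivation ℂ K K}
    (hD : ∀ i j, D i (x j) = if i = j then 1 else 0) (hr : 0 < r) {Q : Place ℂ K}
    (hQ : Divisorial n Q) {a : ℚ} (h : HasLD y n Δ r Q a) (hlc : LogCanonical y n Δ) : 0 ≤ a := by
  classical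
  obtain ⟨hfr, ⟨c, hc⟩, hne⟩ := exists_cc hy hn hx hD
  obtain ⟨r', hr', η, hη, hηP, hηQ⟩ := hlc Q hQ
  obtain ⟨P0, hP0, hP0t⟩ := exists_through hy Q
  have hηD : η D ≠ 0 := hne _ η hη P0 _ (hηP P0 hP0 hP0t)
  have hr0 : (0 : ℚ) < r' := by exact_mod_cast hr'
  obtain ⟨a', ha'⟩ : ∃ a' : ℚ, a' = 1 + (r' * c Q + Q.ord (η D)) / r' := ⟨_, rfl⟩
  have h1 : HasLD y n Δ r' Q a' := by
    refine ⟨η, hη, hηP, ((hc Q hQ _ η hη _).2 hηD).2 ?_⟩
    rw [ha']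
    field_simp
    ring
  rw [ld_uniq hy hn hx hD hr hr' hQ h h1, ha']
  have h2 := ((hc Q hQ _ η hη _).1.1 hηQ).resolve_left hηD
  have h3 : -1 ≤ ((r' : ℚ) * c Q + Q.ord (η D)) / r' := by
    rw [le_div_iff₀ hr0]
    linarith
  linarith

end Pool.Agent.J4.H19.LC
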