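import Pool.Agent.J4.H19.LP.GenB
import Pool.Agent.J4.H19.LC.Eff

/-!
Pairs on models of covers which are branched along log canonical hypersurfaces.
-/

set_option autoImplicit false
set_option linter.overlappingInstances false
set_option linter.unusedSectionVars false
set_option maxHeartbeats 400000

open FF MvPolynomial IntermediateField Pool.Agent.W603.LV Pool.Agent.W619.PQ
open Pool.Agent.W619.TW Pool.Agent.W602.GT Pool.Agent.TH122.AB Pool.Agent.TH756.PN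
open Pool.Agent.Y169.CH Pool.Agent.W602.Cov.G Pool.Agent.W602.Cov Pool.Agent.TH152.AC
open Pool.Agent.Y169.TH Pool.Agent.Y172 Pool.Agent.R887

namespace Pool.Agent.J4.H19.LC

namespace Cv

variable {d : ℕ} {Φ : Arr (d + 1)} {K : Type} [Field K] [Algebra ℂ K] {R : ℕ} (C : Cv Φ K R)

/-- the vector of a place -/
noncomputable def vec (P : Place ℂ K) : Fin (d + 2) → ℕ := (C.exists_dat P).choose_spec.choose

theorem exists_vec (P : Place ℂ K) : ∃ α : ℤ, α ≤ 0 ∧ Dat P Φ.F Φ.dF C.x α (C.vec P) :=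
  ⟨(C.exists_dat P).choose, (C.exists_dat P).choose_spec.choose_spec⟩

theorem vec_eq {P : Place ℂ K} {α : ℤ} {v : Fin (d + 2) → ℕ} (h : Dat P Φ.F Φ.dF C.x α v) :
    C.vec P = v := by
  obtain ⟨α', -, h'⟩ := C.exists_vec P
  exact (dat_uniq h' h).2

/-- the conditions for the pair -/
structure Pr {N : ℕ} (y : Fin (N + 1) → K) (Δ A : Place ℂ K → ℚ) (C0 : ℕ) : Prop where
  a0 : ∀ Q ∈ C.LPl, Divisorial (d + 1) Q → 0 ≤ A Q
  a1 : ∀ Q ∈ C.LPl, Divisorial (d + 1) Q → C.vec Q = 0 → 1 ≤ A Q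
  a2 : ∀ P Q, IsPrimeDivisor y P → P ∈ C.LPl → C.vec P ≠ 0 → Q ∈ C.LPl → Divisorial (d + 1) Q →
    ∀ g : ℕ, 1 ≤ g → (C.vec P = fun k => g * C.vec Q k) → 1 - Δ P ≤ g * A Q
  a3 : ∀ P, IsPrimeDivisor y P → (P ∉ C.LPl ∨ C.vec P = 0) → 0 ≤ Δ P
  a4 : 1 ≤ C0
  a5 : ∀ P, IsPrimeDivisor y P → 1 - Δ P ≤ C0

variable {N : ℕ} {y : Fin (N + 1) → K} {Δ A : Place ℂ K → ℚ} {C0 : ℕ}

/-- **The function of the vectors.** -/
theorem exists_b (h : C.Pr y Δ A C0) {r : ℕ} (hr : 0 < r)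
    (hA : ∀ Q, Divisorial (d + 1) Q → ∃ z : ℤ, (r : ℚ) * A Q = z) :
    ∃ b : (Fin (d + 2) → ℕ) → ℚ, b 0 = 0 ∧ (∀ v, b v ≤ 1) ∧
      (∀ (g : ℕ) (v : Fin (d + 2) → ℕ), 1 ≤ g → Adm C.M C.a v →
        1 - b (fun k => g * v k) ≤ g * (1 - b v)) ∧ (Set.range b).Finite ∧
      (∀ Q ∈ C.LPl, Divisorial (d + 1) Q → 1 - A Q ≤ b (C.vec Q)) ∧
      ∀ P, IsPrimeDivisor y P → P ∈ C.LPl → C.vec P ≠ 0 → b (C.vec P) ≤ Δ P := by
  classical
  have hr' : (0 : ℚ) < r := by exact_mod_cast hr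
  -- the values
  obtain ⟨X, hX⟩ : ∃ X : (Fin (d + 2) → ℕ) → Set ℕ, X = fun v => {k | k = r * C0 ∨
    ∃ (g : ℕ) (Q : Place ℂ K), 1 ≤ g ∧ Q ∈ C.LPl ∧ Divisorial (d + 1) Q ∧
      (v = fun t => g * C.vec Q t) ∧ (k : ℚ) = r * (g * A Q)} := ⟨_, rfl⟩
  obtain ⟨κ, hκ⟩ : ∃ κ : (Fin (d + 2) → ℕ) → ℕ, κ = fun v => sInf (X v) := ⟨_, rfl⟩
  have hmem : ∀ v, κ v ∈ X v := by
    intro v
    rw [hκ]
    refine Nat.sInf_mem ⟨r * C0, ?_⟩
    rw [hX]
    exact Or.inl rfl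
  have hle : ∀ v k, k ∈ X v → κ v ≤ k := by
    intro v k hk
    rw [hκ]
    exact Nat.sInf_le hk
  have hκ1 : ∀ v, κ v ≤ r * C0 := fun v => hle v _ (by
    rw [hX]
    exact Or.inl rfl)
  obtain ⟨b, hb⟩ : ∃ b : (Fin (d + 2) → ℕ) → ℚ,
    b = fun v => if v = 0 then 0 else 1 - (κ v : ℚ) / r := ⟨_, rfl⟩
  have hb0 : b 0 = 0 := by
    rw [hb]
    exact if_pos rfl
  have hbv : ∀ v, v ≠ 0 → b v = 1 - (κ v : ℚ) / r := fun v hv => by
    rw [hb]
    exact if_neg hv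
  refine ⟨b, hb0, ?_, ?_, ?_, ?_, ?_⟩
  · intro v
    by_cases hv : v = 0
    · rw [hv, hb0]
      exact zero_le_one
    · rw [hbv v hv]
      have : (0 : ℚ) ≤ (κ v : ℚ) / r := by positivity
      linarith
  · intro g v hg hv
    have hv0 : v ≠ 0 := hv.1
    have hgv0 : (fun k => g * v k) ≠ 0 := by
      intro h0
      apply hv0
      funext k
      have h1 := congrFun h0 k
      rw [Pi.zero_apply] at h1 ⊢
      rcases Nat.mul_eq_zero.1 h1 with h2 | h2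
      · omega
      · exact h2
    rw [hbv _ hv0, hbv _ hgv0]
    have h1 : κ (fun k => g * v k) ≤ g * κ v := by
      have h2 := hmem v
      rw [hX] at h2
      rcases h2 with h2 | ⟨g', Q, hg', hQL, hQ, hvQ, hk⟩
      · rw [h2]
        refine (hκ1 _).trans ?_
        nlinarith [Nat.zero_le (r * C0)]
      · refine hle _ _ ?_
        rw [hX]
        refine Or.inr ⟨g * g', Q, Nat.one_le_iff_ne_zero.2 (by positivity), hQL, hQ, ?_, ?_⟩
        · funext t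
          rw [hvQ]
          ring
        · push_cast
          rw [hk]
          ring
    have h2 : ((κ fun k => g * v k : ℕ) : ℚ) ≤ g * κ v := by exact_mod_cast h1
    have h3 : ((κ fun k => g * v k : ℕ) : ℚ) / r ≤ g * κ v / r :=
      div_le_div_of_nonneg_right h2 hr'.le
    calc 1 - (1 - ((κ fun k => g * v k : ℕ) : ℚ) / r) = ((κ fun k => g * v k : ℕ) : ℚ) / r := by ring
      _ ≤ g * κ v / r := h3
      _ = g * (1 - (1 - (κ v : ℚ) / r)) := by ring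
  · refine ((Set.finite_Iic (r * C0)).image (fun k : ℕ => 1 - (k : ℚ) / r)).union
      (Set.finite_singleton (0 : ℚ)) |>.subset ?_
    rintro _ ⟨v, rfl⟩
    by_cases hv : v = 0
    · right
      rw [hv, hb0]
      rfl
    · left
      exact ⟨κ v, hκ1 v, (hbv v hv).symm⟩
  · intro Q hQL hQ
    by_cases hv : C.vec Q = 0
    · rw [hv, hb0]
      have := h.a1 Q hQL hQ hv
      linarith
    · rw [hbv _ hv]
      have h0 := h.a0 Q hQL hQ
      obtain ⟨z, hz⟩ := hA Q hQ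
      have hz0 : 0 ≤ z := by
        have h1 : (0 : ℚ) ≤ z := by
          rw [← hz]
          positivity
        exact_mod_cast h1
      obtain ⟨k, rfl⟩ := Int.eq_ofNat_of_zero_le hz0
      have h1 : κ (C.vec Q) ≤ k := by
        refine hle _ _ ?_
        rw [hX]
        refine Or.inr ⟨1, Q, le_rfl, hQL, hQ, ?_, ?_⟩
        · funext t
          rw [one_mul]
        · rw [Nat.cast_one, one_mul, hz]
          simp
      have h2 : (κ (C.vec Q) : ℚ) ≤ r * A Q := by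
        rw [hz]
        exact_mod_cast h1
      have h3 : (κ (C.vec Q) : ℚ) / r ≤ A Q := by
        rw [div_le_iff₀ hr']
        linarith
      linarith
  · intro P hP hPL hv
    rw [hbv _ hv]
    have h1 : 1 - Δ P ≤ (κ (C.vec P) : ℚ) / r := by
      rw [le_div_iff₀ hr']
      have h2 := hmem (C.vec P)
      rw [hX] at h2
      rcases h2 with h2 | ⟨g, Q, hg, hQL, hQ, hvQ, hk⟩
      · rw [h2]
        have h3 := mul_le_mul_of_nonneg_left (h.a5 P hP) hr'.le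
        push_cast
        linarith
      · rw [hk]
        have h3 := mul_le_mul_of_nonneg_left (h.a2 P Q hP hPL hv hQL hQ g hg hvQ) hr'.le
        linarith
    linarith

/-- the forms of the points of the polyhedron are sections -/
theorem mon_mod {b : (Fin (d + 2) → ℕ) → ℚ}
    (hb : ∀ P, IsPrimeDivisor y P → P ∈ C.LPl → C.vec P ≠ 0 → b (C.vec P) ≤ Δ P)
    (hb1 : ∀ v, b v ≤ 1)
    (h3 : ∀ P, IsPrimeDivisor y P → (P ∉ C.LPl ∨ C.vec P = 0) → 0 ≤ Δ P)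
    (hdiv : ∀ P, IsPrimeDivisor y P → Divisorial (d + 1) P) {T : ℕ} {w : Fin (d + 2) → ℤ}
    {p : Fin (d + 2) → ℚ} (hp : p ∈ PiB C.M C.a Φ.dF b 0) (hw : ∀ k, (w k : ℚ) = T * p k)
    {P : Place ℂ K} (hP : IsPrimeDivisor y P) : OrdGe P (C.mon T w) (-(T * Δ P)) := by
  intro E hE
  obtain ⟨α, -, hdat⟩ := C.exists_vec P
  have hT : (0 : ℚ) ≤ T := by positivity
  refine (C.mon_lowB hp hw (hdiv P hP) hdat hE).imp id ?_
  rintro ⟨h1, h2⟩
  by_cases hv : C.vec P = 0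
  · rw [if_pos hv, hv] at h1
    simp only [Pi.zero_apply, Nat.cast_zero, zero_mul, Finset.sum_const_zero, add_zero, sub_zero,
      mul_zero] at h1
    have h4 := mul_nonneg hT (h3 P hP (Or.inr hv))
    linarith
  · have hadm := C.adm hdat hv
    have h5 := hp.2 _ hadm
    by_cases hPL : P ∈ C.LPl
    · have h6 := hb P hP hPL hv
      rw [if_neg hv] at h1
      have h7 : -Δ P ≤ ∑ k, (C.vec P k : ℚ) * p k + 0 * α - 1 := by linarith
      have h8 := mul_le_mul_of_nonneg_left h7 hT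
      linarith
    · have h6 := h2 hPL
      rw [if_neg hv] at h6
      have h7 : (0 : ℚ) ≤ ∑ k, (C.vec P k : ℚ) * p k + 0 * α - 1 + 1 := by
        have := hb1 (C.vec P)
        linarith
      have h8 := mul_nonneg hT h7
      have h9 := mul_nonneg hT (h3 P hP (Or.inl hPL))
      linarith

/-- **The sections which compute the asymptotic orders, on a model.** -/
theorem zar_mod (hy : NormalModel y) (hn : Algebra.trdeg ℂ K = ((d + 1 : ℕ) : Cardinal))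
    (h : C.Pr y Δ A C0) {r : ℕ} (hr : 0 < r)
    (hA : ∀ Q, Divisorial (d + 1) Q → HasLD y (d + 1) Δ r Q (A Q))
    (hA' : ∀ Q, Divisorial (d + 1) Q → ∃ z : ℤ, (r : ℚ) * A Q = z)
    (hps : ∀ D : Fin (d + 1) → Derivation ℂ K K, (∀ i j, D i (C.u j) = if i = j then 1 else 0) →
      ∃ i, y i ≠ 0 ∧ ∀ M : ℕ, 1 ≤ M → ∃ j : ℕ, 1 ≤ j ∧
        ∃ ω : (Fin (d + 1) → Derivation ℂ K K) → K,
        ω D ≠ 0 ∧ IsTwistedSectionP y i (d + 1) Δ (j * M) j ω) :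
    ∃ T : ℕ, 0 < T ∧ ∃ (N' : ℕ) (s : Fin (N' + 1) → (Fin (d + 1) → Derivation ℂ K K) → K)
      (D0 : Fin (d + 1) → Derivation ℂ K K) (δ : Place ℂ K → ℚ),
      (∀ i j, D0 i (C.u j) = if i = j then 1 else 0) ∧
      (∀ Q ∈ C.LPl, Divisorial (d + 1) Q → 1 - A Q ≤ δ Q) ∧
      (∀ i, IsPluri T (s i) ∧ s i D0 ≠ 0 ∧ ∀ P, IsPrimeDivisor y P →
        OrdGe P (s i) (-(T * Δ P))) ∧
      ∀ Q : Place ℂ K, ∃ i, ∀ S : Finset K, ∃ A1 : ℚ, 0 ≤ A1 ∧
        ∀ (m j : ℕ) (ω : (Fin (d + 1) → Derivation ℂ K K) → K), ASecB (d + 1) C.LPl δ S m j ω →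
        ω D0 = 0 ∨ (m : ℚ) * Q.ord (s i D0) ≤ T * Q.ord (ω D0) + A1 * (j + 1) := by
  classical
  obtain ⟨b, hb0, hb1, hbg, hfin, hbQ, hbP⟩ := C.exists_b h hr hA'
  obtain ⟨D0, hD0⟩ := exists_dual C.u_bas
  have hD : ∀ i j, D0 i (C.u j) = if i = j then 1 else 0 := by
    intro i j
    have h1 := congrFun (congrFun hD0 i) j
    rw [Matrix.of_apply, Matrix.one_apply] at h1
    exact h1
  have hdiv : ∀ P, IsPrimeDivisor y P → Divisorial (d + 1) P := fun P hP => hP.divisorial hy hn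
  obtain ⟨δ, hδ⟩ : ∃ δ : Place ℂ K → ℚ, δ = fun Q => b (C.vec Q) := ⟨_, rfl⟩
  have hmono : C.Mono δ b 0 := by
    intro P _ α v hdat
    rw [hδ]
    change b (C.vec P) = _
    rw [C.vec_eq hdat]
    ring
  have hδA : ∀ Q ∈ C.LPl, Divisorial (d + 1) Q → 1 - A Q ≤ δ Q := by
    rw [hδ]
    exact hbQ
  obtain ⟨S0, hT⟩ := C.exists_tst hb1 hfin 0
  have hne : (PiB C.M C.a Φ.dF b 0).Nonempty := by
    by_contra hcon
    rw [Set.not_nonempty_iff_eq_empty] at hcon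
    obtain ⟨i, hi, hM⟩ := hps D0 hD
    obtain ⟨A0, hA0, hz⟩ := C.sec_zeroB hmono hb0 hb1 hbg le_rfl hT (quo y i) hD hcon
    obtain ⟨M, hMA⟩ := exists_nat_gt (2 * A0)
    have hM1 : 1 ≤ M := by
      have h1 : (0 : ℚ) < M := lt_of_le_of_lt (by positivity) hMA
      exact_mod_cast h1
    obtain ⟨j, hj, ω, hω0, hω⟩ := hM M hM1
    refine hω0 (hz (j * M) j ω (asecB_sec (twist_secB hy hn C.u_bas hD hr hA hδA hi hω)) ?_)
    have h1 : (1 : ℚ) ≤ j := by exact_mod_cast hj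
    push_cast
    nlinarith
  obtain ⟨T, hTpos, N', p, w, hpw, hQ⟩ := C.zarB hmono hb0 hb1 hbg le_rfl hT hne hD
  refine ⟨T, hTpos, N', fun i => C.mon T (w i), D0, δ, hD, hδA, fun i =>
    ⟨C.mon_pluri T (w i), (hpw i).2.2, fun P hP => ?_⟩, hQ⟩
  exact C.mon_mod hbP hb1 h.a3 hdiv (hpw i).1 (hpw i).2.1 hP

/-- **Nef log canonical divisors are semiample.** -/
theorem semi_mod (hy : NormalModel y) (hn : Algebra.trdeg ℂ K = ((d + 1 : ℕ) : Cardinal))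
    (h : C.Pr y Δ A C0) {r : ℕ} (hr : 0 < r)
    (hA : ∀ Q, Divisorial (d + 1) Q → HasLD y (d + 1) Δ r Q (A Q))
    (hA' : ∀ Q, Divisorial (d + 1) Q → ∃ z : ℤ, (r : ℚ) * A Q = z)
    (hnef : LogNef y (d + 1) Δ) :
    ∃ T : ℕ, 0 < T ∧ ∀ Q : Place ℂ K, Divisorial (d + 1) Q →
      ∃ ω : (Fin (d + 1) → Derivation ℂ K K) → K, IsPluri T ω ∧
        (∀ P, IsPrimeDivisor y P → OrdGe P ω (-(T * Δ P))) ∧
        ∀ P, IsPrimeDivisor y P → Through y P Q → OrdEq P ω (-(T * Δ P)) := by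
  classical
  obtain ⟨Q0, hQ0⟩ := C.exists_div
  obtain ⟨T, hTpos, N', s, D0, δ, hD, hδA, hs, hQ⟩ := C.zar_mod hy hn h hr hA hA' (by
    intro D hD
    obtain ⟨i, hi⟩ := hy.ne
    exact ⟨i, hi, fun M hM => psef_of_nefB hy hn C.u_bas hD hnef hQ0 hi hM⟩)
  refine ⟨T, hTpos, fun Q hQd => ?_⟩
  obtain ⟨i, hi⟩ := hQ Q
  refine ⟨s i, (hs i).1, (hs i).2.2, ?_⟩
  exact semi_of_lowB hy hn C.u_bas hD hr hA hδA hnef hQd (hs i).1 (hs i).2.2 (hs i).2.1 hi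

end Cv

end Pool.Agent.J4.H19.LC
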