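import Pool.Agent.J4.H19.LP.Main

/-!
Nef divisors on models with trivial canonical class of covers which are branched along log canonical
hypersurfaces.
-/

set_option autoImplicit false
set_option linter.overlappingInstances false
set_option linter.unusedSectionVars false
set_option maxHeartbeats 400000

open FF MvPolynomial IntermediateField Pool.Agent.W603.LV Pool.Agent.W619.PQ
open Pool.Agent.W602.GT Pool.Agent.TH122.AB
open Pool.Agent.Y169.CH Pool.Agent.W602.Cov.G Pool.Agent.W602.Cov Pool.Agent.TH152.AC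
open Pool.Agent.Y169.TH Pool.Agent.Y172 Pool.Agent.R887

namespace Pool.Agent.J4.H19.LC

section

variable {K : Type} [Field K] [Algebra ℂ K] {N n : ℕ}

/-- `η` generates `r K`, and `Y` is terminal -/
structure Tri (y : Fin (N + 1) → K) (n r : ℕ) (η : (Fin n → Derivation ℂ K K) → K) : Prop where
  plu : IsPluri r η
  gen : ∀ P, IsPrimeDivisor y P → OrdEq P η 0
  ter : ∀ Q, Divisorial n Q → ¬ IsPrimeDivisor y Q → OrdGe Q η 1

/-- `f` is a local equation of `k L` at the centre of `Q` -/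
def LEq (y : Fin (N + 1) → K) (L : Place ℂ K → ℚ) (k : ℕ) (Q : Place ℂ K) (f : K) : Prop :=
  f ≠ 0 ∧ ∀ P, IsPrimeDivisor y P → Through y P Q → (P.ord f : ℚ) = k * L P

/-- the divisor `L` is nef -/
def NefF (y : Fin (N + 1) → K) (n : ℕ) (L : Place ℂ K → ℚ) : Prop :=
  ∀ i, y i ≠ 0 → ∀ q : ℕ, 1 ≤ q → ∃ m : ℕ, 1 ≤ m ∧ ∀ Q : Place ℂ K, Divisorial n Q →
    ∃ f : K, f ≠ 0 ∧ (∀ P l, IsPrimeDivisor y P → Centred y l P →
        -((m * q : ℕ) * L P) - m * P.ord (y i / y l) ≤ (P.ord f : ℚ)) ∧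
      ∀ P l, IsPrimeDivisor y P → Through y P Q → Centred y l P →
        (P.ord f : ℚ) = -((m * q : ℕ) * L P) - m * P.ord (y i / y l)

theorem pluri_mulc {m : ℕ} {ω : (Fin n → Derivation ℂ K K) → K} (hω : IsPluri m ω) (g : K) :
    IsPluri m (fun D => ω D * g) := by
  intro A D
  change ω _ * g = _
  rw [hω]
  ring

variable {y : Fin (N + 1) → K} {L : Place ℂ K → ℚ} {r : ℕ}
  {η : (Fin n → Derivation ℂ K K) → K}

/-- local equations -/
theorem exists_leq (hy : NormalModel y) (hL : NefF y n L) : ∃ k : ℕ, 0 < k ∧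
    ∀ Q, Divisorial n Q → ∃ f, LEq y L k Q f := by
  obtain ⟨i, hi⟩ := hy.ne
  obtain ⟨m, hm, hgen⟩ := hL i hi 1 le_rfl
  refine ⟨m, hm, fun Q hQ => ?_⟩
  obtain ⟨f, hf0, -, hf⟩ := hgen Q hQ
  obtain ⟨l, hl⟩ := exists_centred hy Q
  have hyl : y i / y l ≠ 0 := div_ne_zero hi hl.1
  refine ⟨(f * (y i / y l) ^ m)⁻¹, inv_ne_zero (mul_ne_zero hf0 (pow_ne_zero _ hyl)),
    fun P hP hPt => ?_⟩
  have h1 := hf P l hP hPt (hPt.centred hl)
  rw [P.ord_inv, P.ord_mul hf0 (pow_ne_zero _ hyl), P.ord_pow]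
  push_cast at h1 ⊢
  rw [h1]
  ring

/-- the log discrepancies of `L / k2` -/
theorem tri_ld (hy : NormalModel y) (hn : Algebra.trdeg ℂ K = n) {x : Fin n → K}
    (hx : IsTranscendenceBasis ℂ x) {D : Fin n → Derivation ℂ K K}
    (hD : ∀ i j, D i (x j) = if i = j then 1 else 0) (hr : 0 < r) (hη : Tri y n r η)
    {k k2 : ℕ} (hk : 0 < k) (hk2 : 0 < k2) {Q : Place ℂ K} (hQ : Divisorial n Q) {f : K}
    (hf : LEq y L k Q f) {e : ℤ} (he : OrdEq Q η e) {r' : ℕ} (hr' : 0 < r') {a : ℚ}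
    (h : HasLD y n (fun P => L P / k2) r' Q a) : a = 1 + e / r - Q.ord f / k / k2 := by
  obtain ⟨hfr, ⟨c, hc⟩, hne⟩ := exists_cc hy hn hx hD
  have hdiv : ∀ P, IsPrimeDivisor y P → Divisorial n P := fun P hP => hP.divisorial hy hn
  have hηD : η D ≠ 0 := hne r η hη.plu Q _ he
  have hr0 : (r : ℚ) ≠ 0 := by exact_mod_cast hr.ne'
  have hk0 : (k : ℚ) ≠ 0 := by exact_mod_cast hk.ne'
  have hk20 : (k2 : ℚ) ≠ 0 := by exact_mod_cast hk2.ne'
  obtain ⟨ω, hω⟩ : ∃ ω : (Fin n → Derivation ℂ K K) → K,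
    ω = fun E => η E ^ (k2 * k) * (f⁻¹) ^ r := ⟨_, rfl⟩
  have hωp : IsPluri (r * (k2 * k)) ω := by
    rw [hω]
    exact pluri_mulc (pluri_pow hη.plu _) _
  have hωD : ω D ≠ 0 := by
    rw [hω]
    exact mul_ne_zero (pow_ne_zero _ hηD) (pow_ne_zero _ (inv_ne_zero hf.1))
  have hord : ∀ P : Place ℂ K, P.ord (ω D) = (k2 * k : ℕ) * P.ord (η D) - r * P.ord f := by
    intro P
    rw [hω]
    change P.ord (η D ^ (k2 * k) * (f⁻¹) ^ r) = _
    rw [P.ord_mul (pow_ne_zero _ hηD) (pow_ne_zero _ (inv_ne_zero hf.1)), P.ord_pow, P.ord_pow,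
      P.ord_inv]
    ring
  have h1 : HasLD y n (fun P => L P / k2) (r * (k2 * k)) Q (1 + e / r - Q.ord f / k / k2) := by
    refine ⟨ω, hωp, fun P hP hPt => ?_, ?_⟩
    · refine ((hc P (hdiv P hP) _ ω hωp _).2 hωD).2 ?_
      have h2 := ((hc P (hdiv P hP) _ η hη.plu _).2 hηD).1 (hη.gen P hP)
      have h3 := hf.2 P hP hPt
      rw [hord]
      push_cast
      rw [h3]
      field_simp
      linear_combination (k2 : ℚ) * h2
    · refine ((hc Q hQ _ ω hωp _).2 hωD).2 ?_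
      have h2 := ((hc Q hQ _ η hη.plu _).2 hηD).1 he
      rw [hord]
      push_cast
      field_simp
      linear_combination (k * k2 : ℚ) * h2
  exact ld_uniq hy hn hx hD hr' (Nat.mul_pos hr (Nat.mul_pos hk2 hk)) hQ h h1

/-- `K + L / k2` is nef -/
theorem tri_nef (hy : NormalModel y) (hn : Algebra.trdeg ℂ K = n) {x : Fin n → K}
    (hx : IsTranscendenceBasis ℂ x) {D : Fin n → Derivation ℂ K K}
    (hD : ∀ i j, D i (x j) = if i = j then 1 else 0) (hr : 0 < r) (hη : Tri y n r η)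
    {k2 : ℕ} (hk2 : 0 < k2) (hL : NefF y n L) : LogNef y n (fun P => L P / k2) := by
  obtain ⟨hfr, ⟨c, hc⟩, hne⟩ := exists_cc hy hn hx hD
  have hdiv : ∀ P, IsPrimeDivisor y P → Divisorial n P := fun P hP => hP.divisorial hy hn
  have hk20 : (k2 : ℚ) ≠ 0 := by exact_mod_cast hk2.ne'
  obtain ⟨k3, rfl⟩ : ∃ k3, k2 = k3 + 1 := ⟨k2 - 1, by omega⟩
  intro i hi q hq
  obtain ⟨m, hm, hgen⟩ := hL i hi q hq
  refine ⟨m * r * (k3 + 1), Nat.mul_pos (Nat.mul_pos hm hr) hk2, fun Q hQ => ?_⟩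
  obtain ⟨f, hf0, hf1, hf2⟩ := hgen Q hQ
  obtain ⟨l, hl⟩ := exists_centred hy Q
  have hyl : y l / y i ≠ 0 := div_ne_zero hl.1 hi
  obtain ⟨ω, hω⟩ : ∃ ω : (Fin n → Derivation ℂ K K) → K,
    ω = fun E => η E ^ (m * (k3 + 1) * q) * (f ^ r * (y l / y i) ^ (m * r * k3)) := ⟨_, rfl⟩
  have hg0 : f ^ r * (y l / y i) ^ (m * r * k3) ≠ 0 :=
    mul_ne_zero (pow_ne_zero _ hf0) (pow_ne_zero _ hyl)
  have hωp : IsPluri (m * r * (k3 + 1) * q) ω := by
    have h1 : m * r * (k3 + 1) * q = r * (m * (k3 + 1) * q) := by ring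
    rw [h1, hω]
    exact pluri_mulc (pluri_pow hη.plu _) _
  have hηD : η D ≠ 0 := by
    obtain ⟨P0, hP0, hP0t⟩ := exists_through hy Q
    exact hne r η hη.plu P0 _ (hη.gen P0 hP0)
  have hωD : ω D ≠ 0 := by
    rw [hω]
    exact mul_ne_zero (pow_ne_zero _ hηD) hg0
  have hord : ∀ P : Place ℂ K, P.ord (ω D) = (m * (k3 + 1) * q : ℕ) * P.ord (η D) +
      (r * P.ord f + (m * r * k3 : ℕ) * P.ord (y l / y i)) := by
    intro P
    rw [hω]
    change P.ord (η D ^ (m * (k3 + 1) * q) * (f ^ r * (y l / y i) ^ (m * r * k3))) = _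
    rw [P.ord_mul (pow_ne_zero _ hηD) hg0, P.ord_mul (pow_ne_zero _ hf0) (pow_ne_zero _ hyl),
      P.ord_pow, P.ord_pow, P.ord_pow]
  have hquo : ∀ (P : Place ℂ K) l', y l' ≠ 0 →
      P.ord (y l / y i) = P.ord (y l / y l') - P.ord (y i / y l') := by
    intro P l' hl'
    rw [P.ord_div hl.1 hi, P.ord_div hl.1 hl', P.ord_div hi hl']
    ring
  have hηP : ∀ P, IsPrimeDivisor y P → ((r : ℚ) * c P + P.ord (η D)) = 0 := fun P hP =>
    ((hc P (hdiv P hP) _ η hη.plu _).2 hηD).1 (hη.gen P hP)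
  refine ⟨ω, ⟨hωp, fun P l' hP hl' => ?_⟩, fun P l' hP hPt hl' => ?_⟩
  · refine (hc P (hdiv P hP) _ ω hωp _).1.2 (Or.inr ?_)
    have h1 := hf1 P l' hP hl'
    have h2 := hηP P hP
    have h3 : 0 ≤ P.ord (y l / y l') := by
      rcases hl'.2 l with h4 | h4
      · exact absurd h4 (div_ne_zero hl.1 hl'.1)
      · exact h4
    have h3' : (0 : ℚ) ≤ P.ord (y l / y l') := by exact_mod_cast h3
    rw [hord, hquo P l' hl'.1]
    push_cast at h1 ⊢
    have h4 := mul_le_mul_of_nonneg_left h1 (show (0 : ℚ) ≤ r by positivity)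
    have h5 : (0 : ℚ) ≤ m * r * k3 * P.ord (y l / y l') := by positivity
    have h6 : (m * r * (k3 + 1) * q : ℚ) * (L P / (k3 + 1)) = m * r * q * L P := by
      field_simp
    rw [h6]
    have h7 : ((m : ℚ) * r * (k3 + 1) * q) * c P + m * (k3 + 1) * q * P.ord (η D) = 0 := by
      linear_combination (m * (k3 + 1) * q : ℚ) * h2
    linarith
  · refine ((hc P (hdiv P hP) _ ω hωp _).2 hωD).2 ?_
    have h1 := hf2 P l' hP hPt hl'
    have h2 := hηP P hP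
    have hcl := hPt.centred hl
    have h3 : P.ord (y l / y l') = 0 := by
      have h4 : 0 ≤ P.ord (y l / y l') := by
        rcases hl'.2 l with h4 | h4
        · exact absurd h4 (div_ne_zero hl.1 hl'.1)
        · exact h4
      have h5 : 0 ≤ P.ord (y l' / y l) := by
        rcases hcl.2 l' with h5 | h5
        · exact absurd h5 (div_ne_zero hl'.1 hl.1)
        · exact h5
      rw [P.ord_div hl'.1 hl.1] at h5
      rw [P.ord_div hl.1 hl'.1] at h4 ⊢
      omega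
    rw [hord, hquo P l' hl'.1, h3]
    push_cast at h1 ⊢
    have h6 : (m * r * (k3 + 1) * q : ℚ) * (L P / (k3 + 1)) = m * r * q * L P := by
      field_simp
    rw [h6, h1]
    linear_combination (m * (k3 + 1) * q : ℚ) * h2

/-- from forms to functions -/
theorem tri_semi (hy : NormalModel y) (hn : Algebra.trdeg ℂ K = n) {x : Fin n → K}
    (hx : IsTranscendenceBasis ℂ x) {D : Fin n → Derivation ℂ K K}
    (hD : ∀ i j, D i (x j) = if i = j then 1 else 0) (hr : 0 < r) (hη : Tri y n r η)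
    {k2 : ℕ} (hk2 : 0 < k2) {T : ℕ} {Q : Place ℂ K}
    {ω : (Fin n → Derivation ℂ K K) → K} (hω : IsPluri T ω)
    (h1 : ∀ P, IsPrimeDivisor y P → OrdGe P ω (-(T * (L P / k2))))
    (h2 : ∀ P, IsPrimeDivisor y P → Through y P Q → OrdEq P ω (-(T * (L P / k2)))) :
    ∃ f : K, f ≠ 0 ∧ (∀ P, IsPrimeDivisor y P → -((T * r : ℕ) * L P) ≤ (P.ord f : ℚ)) ∧
      ∀ P, IsPrimeDivisor y P → Through y P Q → (P.ord f : ℚ) = -((T * r : ℕ) * L P) := by
  obtain ⟨hfr, ⟨c, hc⟩, hne⟩ := exists_cc hy hn hx hD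
  have hdiv : ∀ P, IsPrimeDivisor y P → Divisorial n P := fun P hP => hP.divisorial hy hn
  have hk20 : (0 : ℚ) < k2 := by exact_mod_cast hk2
  obtain ⟨P0, hP0, hP0t⟩ := exists_through hy Q
  have hηD : η D ≠ 0 := hne r η hη.plu P0 _ (hη.gen P0 hP0)
  have hωD : ω D ≠ 0 := hne T ω hω P0 _ (h2 P0 hP0 hP0t)
  have hηP : ∀ P, IsPrimeDivisor y P → ((r : ℚ) * c P + P.ord (η D)) = 0 := fun P hP =>
    ((hc P (hdiv P hP) _ η hη.plu _).2 hηD).1 (hη.gen P hP)
  have hord : ∀ P : Place ℂ K, P.ord (ω D ^ (r * k2) / η D ^ (T * k2)) =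
      (r * k2 : ℕ) * P.ord (ω D) - (T * k2 : ℕ) * P.ord (η D) := by
    intro P
    rw [P.ord_div (pow_ne_zero _ hωD) (pow_ne_zero _ hηD), P.ord_pow, P.ord_pow]
  refine ⟨ω D ^ (r * k2) / η D ^ (T * k2), div_ne_zero (pow_ne_zero _ hωD) (pow_ne_zero _ hηD),
    fun P hP => ?_, fun P hP hPt => ?_⟩
  · have h3 := ((hc P (hdiv P hP) _ ω hω _).1.1 (h1 P hP)).resolve_left hωD
    have h4 := hηP P hP
    rw [hord]
    push_cast
    have h5 := mul_le_mul_of_nonneg_left h3 (show (0 : ℚ) ≤ r * k2 by positivity)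
    have h6 : (r * k2 : ℚ) * -(T * (L P / k2)) = -(T * r * L P) := by
      field_simp
    rw [h6] at h5
    have h7 : (r * k2 : ℚ) * (T * c P) + T * k2 * P.ord (η D) = 0 := by
      linear_combination (T * k2 : ℚ) * h4
    linarith
  · have h3 := ((hc P (hdiv P hP) _ ω hω _).2 hωD).1 (h2 P hP hPt)
    have h4 := hηP P hP
    rw [hord]
    push_cast
    have h5 : (P.ord (ω D) : ℚ) = -(T * (L P / k2)) - T * c P := by linarith
    rw [h5]
    have h6 : (r * k2 : ℚ) * -(T * (L P / k2)) = -(T * r * L P) := by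
      field_simp
    linear_combination h6 - (T * k2 : ℚ) * h4

end

variable {d R : ℕ} {K : Type} [Field K] [Algebra ℂ K] {N : ℕ} {y : Fin (N + 1) → K}
  {L : Place ℂ K → ℚ} {r : ℕ} {η : (Fin (d + 1) → Derivation ℂ K K) → K}

/-- the conditions for the divisor `L` -/
structure UnL (F : Fin (d + 2) → MvPolynomial (Fin (d + 2)) ℂ) (dF : Fin (d + 2) → ℕ)
    (x : Fin (d + 2) → K) (y : Fin (N + 1) → K) (r : ℕ) (η : (Fin (d + 1) → Derivation ℂ K K) → K)
    (L : Place ℂ K → ℚ) : Prop where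
  fin : {P | IsPrimeDivisor y P ∧ L P ≠ 0}.Finite
  u1 : ∀ P P', IsPrimeDivisor y P → IsPrimeDivisor y P' → LogPl F dF x P → LogPl F dF x P' →
    (∀ k, mu F dF x P k = mu F dF x P' k) → L P = L P'
  u0 : ∀ P, IsPrimeDivisor y P → LogPl F dF x P → (∀ k, mu F dF x P k = 0) → L P = 0
  u2 : ∀ P, IsPrimeDivisor y P → ¬ LogPl F dF x P → 0 ≤ L P
  lc : ∃ ε : ℚ, 0 < ε ∧ ∀ Q, Divisorial (d + 1) Q → LogPl F dF x Q → ∀ (k : ℕ) (f : K), 0 < k →
    LEq y L k Q f → ∀ e : ℤ, OrdEq Q η e → ε * (Q.ord f / k) ≤ 1 + e / r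

/-- the conditions for the pair -/
theorem prx_of_tri {F : Fin (d + 2) → MvPolynomial (Fin (d + 2)) ℂ} {dF : Fin (d + 2) → ℕ}
    {x : Fin (d + 2) → K} (hy : NormalModel y) (hn : Algebra.trdeg ℂ K = ((d + 1 : ℕ) : Cardinal))
    {u : Fin (d + 1) → K}
    (hu : IsTranscendenceBasis ℂ u) {D : Fin (d + 1) → Derivation ℂ K K}
    (hD : ∀ i j, D i (u j) = if i = j then 1 else 0) (hr : 0 < r) (hη : Tri y (d + 1) r η)
    (hL : NefF y (d + 1) L) (h : UnL F dF x y r η L)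
    (hex : ∃ Q : Place ℂ K, Divisorial (d + 1) Q) :
    ∃ k2 : ℕ, 0 < k2 ∧ PrX F dF x y (fun P => L P / k2) := by
  classical
  obtain ⟨hfr, ⟨c, hc⟩, hne⟩ := exists_cc hy hn hu hD
  have hdiv : ∀ P, IsPrimeDivisor y P → Divisorial (d + 1) P := fun P hP => hP.divisorial hy hn
  obtain ⟨ε, hε, hlc⟩ := h.lc
  obtain ⟨k, hk, hle⟩ := exists_leq hy hL
  have hkq : (0 : ℚ) < k := by exact_mod_cast hk
  have hrq : (0 : ℚ) < r := by exact_mod_cast hr
  -- the coefficients are bounded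
  obtain ⟨B, hB0, hB⟩ : ∃ B : ℚ, 0 ≤ B ∧ ∀ P, IsPrimeDivisor y P → |L P| ≤ B := by
    have h1 : ((fun P => |L P|) '' {P | IsPrimeDivisor y P ∧ L P ≠ 0}).Finite := h.fin.image _
    obtain ⟨B, hB⟩ := h1.bddAbove
    refine ⟨max B 0, le_max_right _ _, fun P hP => ?_⟩
    by_cases h0 : L P = 0
    · rw [h0, abs_zero]
      exact le_max_right _ _
    · exact (hB ⟨P, ⟨hP, h0⟩, rfl⟩).trans (le_max_left _ _)
  obtain ⟨k2, hk2⟩ := exists_nat_gt ((r : ℚ) * (2 / ε + B))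
  have hk2q : (0 : ℚ) < k2 := lt_of_le_of_lt (by positivity) hk2
  have hk2n : 0 < k2 := by exact_mod_cast hk2q
  -- the orders of `η`
  have hηD : η D ≠ 0 := by
    obtain ⟨Q0, -⟩ := hex
    obtain ⟨P0, hP0, -⟩ := exists_through hy Q0
    exact hne r η hη.plu P0 _ (hη.gen P0 hP0)
  obtain ⟨e, he⟩ : ∃ e : Place ℂ K → ℤ, e = fun Q => r * c Q + Q.ord (η D) := ⟨_, rfl⟩
  have heq : ∀ Q, Divisorial (d + 1) Q → OrdEq Q η (e Q) := by
    intro Q hQ
    refine ((hc Q hQ _ η hη.plu _).2 hηD).2 ?_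
    rw [he]
    push_cast
    rfl
  have heP : ∀ P, IsPrimeDivisor y P → (e P : ℚ) = 0 := by
    intro P hP
    have h1 := ((hc P (hdiv P hP) _ η hη.plu _).2 hηD).1 (hη.gen P hP)
    rw [he]
    push_cast
    exact h1
  have heQ : ∀ Q, Divisorial (d + 1) Q → ¬ IsPrimeDivisor y Q → (1 : ℚ) ≤ e Q := by
    intro Q hQ hQp
    have h1 := ((hc Q hQ _ η hη.plu _).1.1 (hη.ter Q hQ hQp)).resolve_left hηD
    rw [he]
    push_cast
    exact h1
  have he0 : ∀ Q, Divisorial (d + 1) Q → (0 : ℚ) ≤ e Q := by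
    intro Q hQ
    by_cases hQp : IsPrimeDivisor y Q
    · exact (heP Q hQp).ge
    · exact zero_le_one.trans (heQ Q hQ hQp)
  -- the small number
  obtain ⟨θ, hθ⟩ : ∃ θ : ℚ, θ = 1 / (ε * k2) := ⟨_, rfl⟩
  have hθ0 : 0 < θ := by
    rw [hθ]
    positivity
  have hθB : 2 * θ + B / k2 < 1 / r := by
    have h1 : 2 * θ + B / k2 = (2 / ε + B) / k2 := by
      rw [hθ]
      field_simp
    rw [h1, div_lt_div_iff₀ hk2q hrq]
    linarith
  have h1r : (1 : ℚ) / r ≤ 1 := by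
    rw [div_le_one hrq]
    exact_mod_cast hr
  have hBk : 0 ≤ B / k2 := by positivity
  -- the log discrepancies
  have hld : ∀ Q, Divisorial (d + 1) Q → LogPl F dF x Q → ∀ (r' : ℕ) (a : ℚ), 0 < r' →
      HasLD y (d + 1) (fun P => L P / k2) r' Q a → (1 - θ) * (1 + e Q / r) ≤ a := by
    intro Q hQ hQL r' a hr' ha
    obtain ⟨f, hf⟩ := hle Q hQ
    have h1 := tri_ld hy hn hu hD hr hη hk hk2n hQ hf (heq Q hQ) hr' ha
    have h2 := hlc Q hQ hQL k f hk hf _ (heq Q hQ)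
    rw [h1]
    have h3 : (Q.ord f / k / k2 : ℚ) ≤ θ * (1 + e Q / r) := by
      have h4 : (Q.ord f / k / k2 : ℚ) = θ * (ε * (Q.ord f / k)) := by
        rw [hθ]
        field_simp
      rw [h4]
      exact mul_le_mul_of_nonneg_left h2 hθ0.le
    linarith
  have hldP : ∀ Q, IsPrimeDivisor y Q → ∀ (r' : ℕ) (a : ℚ), 0 < r' →
      HasLD y (d + 1) (fun P => L P / k2) r' Q a → a = 1 - L Q / k2 := fun Q hQ r' a hr' ha =>
    ld_prime hr' hy hn hu hD hQ ha
  have hnp : ∀ Q, Divisorial (d + 1) Q → ¬ IsPrimeDivisor y Q →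
      1 + B / k2 ≤ (1 - θ) * (1 + e Q / r) := by
    intro Q hQ hQp
    have h1 : (1 : ℚ) / r ≤ e Q / r := div_le_div_of_nonneg_right (heQ Q hQ hQp) hrq.le
    have h2 : (1 - θ) * (1 + 1 / r) ≤ (1 - θ) * (1 + e Q / r) :=
      mul_le_mul_of_nonneg_left (by linarith) (by linarith)
    have h3 : θ * (1 / r) ≤ θ * 1 := mul_le_mul_of_nonneg_left h1r hθ0.le
    linarith
  have hLB : ∀ P, IsPrimeDivisor y P → -(B / k2) ≤ L P / k2 ∧ L P / k2 ≤ B / k2 := by
    intro P hP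
    have h1 := abs_le.1 (hB P hP)
    constructor
    · rw [← neg_div]
      exact div_le_div_of_nonneg_right h1.1 hk2q.le
    · exact div_le_div_of_nonneg_right h1.2 hk2q.le
  refine ⟨k2, hk2n, ⟨?_, ?_, ?_, ?_, ?_⟩⟩
  · intro Q hQ hQL r' a hr' ha
    refine le_trans ?_ (hld Q hQ hQL r' a hr' ha)
    have h1 : (0 : ℚ) ≤ e Q / r := div_nonneg (he0 Q hQ) hrq.le
    exact mul_nonneg (by linarith) (by linarith)
  · intro Q hQ hQL hQ0 r' a hr' ha
    by_cases hQp : IsPrimeDivisor y Q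
    · rw [hldP Q hQp r' a hr' ha, h.u0 Q hQp hQL hQ0]
      simp
    · have h1 := (hnp Q hQ hQp).trans (hld Q hQ hQL r' a hr' ha)
      linarith
  · intro P hP hPL hP0 Q hQ hQL g hg hPQ r' a hr' ha
    have h2 := hLB P hP
    by_cases hg1 : g = 1
    · subst hg1
      by_cases hQp : IsPrimeDivisor y Q
      · rw [hldP Q hQp r' a hr' ha, h.u1 P Q hP hQp hPL hQL fun k => by
          rw [hPQ]
          simp]
        simp
      · have h1 := (hnp Q hQ hQp).trans (hld Q hQ hQL r' a hr' ha)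
        simp only [Nat.cast_one, one_mul]
        linarith
    · have hg2 : (2 : ℚ) ≤ g := by
        have : 2 ≤ g := by omega
        exact_mod_cast this
      have h1 := hld Q hQ hQL r' a hr' ha
      have h3 : (0 : ℚ) ≤ e Q / r := div_nonneg (he0 Q hQ) hrq.le
      have h4 : (1 - θ) * 1 ≤ (1 - θ) * (1 + e Q / r) :=
        mul_le_mul_of_nonneg_left (by linarith) (by linarith)
      have h5 : 2 * a ≤ g * a := mul_le_mul_of_nonneg_right hg2 (by linarith)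
      linarith
  · rintro P hP (h1 | h1)
    · exact div_nonneg (h.u2 P hP h1) hk2q.le
    · by_cases hPL : LogPl F dF x P
      · rw [h.u0 P hP hPL h1, zero_div]
      · exact div_nonneg (h.u2 P hP hPL) hk2q.le
  · obtain ⟨C0, hC0⟩ := exists_nat_ge (1 + B / k2)
    refine ⟨C0, fun P hP => ?_⟩
    have h1 := hLB P hP
    linarith

section

variable {x : Fin (d + 2) → K} (hx0 : x 0 ≠ 0)
    (hbas : IsTranscendenceBasis ℂ fun b : Fin (d + 1) => x b.succ / x 0)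
    {F : Fin (d + 2) → MvPolynomial (Fin (d + 2)) ℂ} {dF : Fin (d + 2) → ℕ} (hd : ∀ k, 0 < dF k)
    (hh : ∀ k, (F k).IsHomogeneous (dF k)) (hF0 : ∀ k, F k ≠ 0) (hN : Noc F) (hL : Lca F)
    {z : Fin R → K} {M : Fin R → ℕ} (hM : ∀ j, 0 < M j) {a : Fin R → Fin (d + 2) → ℕ}
    (hz : ∀ j, z j ^ M j = ∏ k, (aeval x (F k) / x 0 ^ dF k) ^ a j k)
    (hdiv : ∀ j, M j ∣ ∑ k, a j k * dF k)
    (hgen : IntermediateField.adjoin ℂ
      (Set.range (fun b : Fin (d + 1) => x b.succ / x 0) ∪ Set.range z) = ⊤)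

include hx0 hbas hd hh hF0 hN hL hM hz hdiv hgen

/-- **Uniform nef divisors on models with trivial canonical class are semiample.** -/
theorem main_tri (hy : NormalModel y) (hr : 0 < r) (hη : Tri y (d + 1) r η)
    (hnef : NefF y (d + 1) L) (h : UnL F dF x y r η L) :
    ∃ T : ℕ, 0 < T ∧ ∀ Q : Place ℂ K, Divisorial (d + 1) Q → ∃ f : K, f ≠ 0 ∧
      (∀ P, IsPrimeDivisor y P → -(T * L P) ≤ (P.ord f : ℚ)) ∧
      ∀ P, IsPrimeDivisor y P → Through y P Q → (P.ord f : ℚ) = -(T * L P) := by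
  classical
  have hn : Algebra.trdeg ℂ K = ((d + 1 : ℕ) : Cardinal) := by
    rw [← hbas.cardinalMk_eq_trdeg, Cardinal.mk_fin]
  obtain ⟨D0, hD0⟩ := exists_dual hbas
  have hD : ∀ i j, D0 i (x j.succ / x 0) = if i = j then 1 else 0 := by
    intro i j
    have h1 := congrFun (congrFun hD0 i) j
    rw [Matrix.of_apply, Matrix.one_apply] at h1
    exact h1
  have hex : ∃ Q : Place ℂ K, Divisorial (d + 1) Q := by
    obtain ⟨Φ, -, C, -⟩ := exists_cvx hx0 hbas hd hh hF0 hN hL hM hz hdiv hgen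
    exact C.exists_div
  obtain ⟨k2, hk2, hP⟩ := prx_of_tri hy hn hbas hD hr hη hnef h hex
  obtain ⟨T, hT, h1⟩ := main_semiP hx0 hbas hd hh hF0 hN hL hM hz hdiv hgen hy hP
    (tri_nef hy hn hbas hD hr hη hk2 hnef)
  refine ⟨T * r, Nat.mul_pos hT hr, fun Q hQ => ?_⟩
  obtain ⟨ω, hω, h2, h3⟩ := h1 Q hQ
  obtain ⟨f, hf0, hf1, hf2⟩ := tri_semi hy hn hbas hD hr hη hk2 hω h2 h3
  exact ⟨f, hf0, hf1, hf2⟩

end

end Pool.Agent.J4.H19.LC
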